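import Mathlib

/-! Riemannian metrics given by compatible families of local immersions into a Euclidean space. -/

set_option autoImplicit false

open scoped Manifold ContDiff Topology ENNReal
open Set Bundle Filter

noncomputable section

namespace Pool.Agent.TH625

variable {E : Type} [NormedAddCommGroup E] [NormedSpace ℝ E]
  {M : Type} [TopologicalSpace M] [ChartedSpace E M] [IsManifold 𝓘(ℝ, E) ∞ M]
  {F : Type} [NormedAddCommGroup F] [InnerProductSpace ℝ F]

variable (E) in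
/-- the derivative of a map to a vector space, as a linear map on the model space -/
def dd (ψ : M → F) (q : M) : E →L[ℝ] F := mfderiv 𝓘(ℝ, E) 𝓘(ℝ, F) ψ q

/-- the inner product -/
def innF (F : Type) [NormedAddCommGroup F] [InnerProductSpace ℝ F] : F →L[ℝ] F →L[ℝ] ℝ :=
  innerSL ℝ (E := F)

/-- pullback of the inner product by a linear map -/
def pb (L : E →L[ℝ] F) : E →L[ℝ] E →L[ℝ] ℝ :=
  ((ContinuousLinearMap.compL ℝ E F ℝ).flip L).comp ((innF F).comp L)

lemma pb_apply (L : E →L[ℝ] F) (v w : E) : pb L v w = inner ℝ (L v) (L w) := rfl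

lemma contDiff_pb : ContDiff ℝ ∞ (pb : (E →L[ℝ] F) → (E →L[ℝ] E →L[ℝ] ℝ)) := by
  have h1 : ContDiff ℝ ∞ (fun L : E →L[ℝ] F => (innF F).comp L) :=
    contDiff_const.clm_comp contDiff_id
  have h2 : ContDiff ℝ ∞ (fun L : E →L[ℝ] F => (ContinuousLinearMap.compL ℝ E F ℝ).flip L) :=
    ContinuousLinearMap.contDiff (𝕜 := ℝ) (E := E →L[ℝ] F) (F := (F →L[ℝ] ℝ) →L[ℝ] E →L[ℝ] ℝ)
      ((ContinuousLinearMap.compL ℝ E F ℝ).flip)
  exact h2.clm_comp h1

variable (E) in
/-- pullback of the inner product by the derivative of a map -/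
def pbT (ψ : M → F) (b : M) : TangentSpace 𝓘(ℝ, E) b →L[ℝ] TangentSpace 𝓘(ℝ, E) b →L[ℝ] ℝ :=
  (pb (dd E ψ b) : E →L[ℝ] E →L[ℝ] ℝ)

omit [IsManifold 𝓘(ℝ, E) ∞ M] in
lemma pbT_apply (ψ : M → F) (b : M) (v w : TangentSpace 𝓘(ℝ, E) b) :
    pbT E ψ b v w = inner ℝ (dd E ψ b v) (dd E ψ b w) := rfl

set_option backward.isDefEq.respectTransparency false in
lemma contMDiffAt_pull {ψ : M → F} {x : M} (h : ContMDiffAt 𝓘(ℝ, E) 𝓘(ℝ, F) ∞ ψ x) :
    ContMDiffAt 𝓘(ℝ, E) (𝓘(ℝ, E).prod 𝓘(ℝ, E →L[ℝ] E →L[ℝ] ℝ)) ∞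
      (fun b : M => TotalSpace.mk' (E →L[ℝ] E →L[ℝ] ℝ) b (pbT E ψ b)) x := by
  rw [contMDiffAt_section]
  have h1 := h.mfderiv_const (m := ∞) (by simp)
  have h2 := contDiff_pb.contMDiff.contMDiffAt.comp x h1
    (I' := 𝓘(ℝ, E →L[ℝ] F)) (I'' := 𝓘(ℝ, E →L[ℝ] E →L[ℝ] ℝ))
  refine h2.congr_of_eventuallyEq ?_
  filter_upwards [(chartAt E x).open_source.mem_nhds (mem_chart_source E x)] with y hy
  ext v w
  rw [hom_trivializationAt_apply, inCoordinates_apply_eq₂]
  · rw [Function.comp_apply, pb_apply]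
    simp only [inTangentCoordinates, ContinuousLinearMap.inCoordinates]
    have hyb : y ∈ (trivializationAt E (TangentSpace 𝓘(ℝ, E)) x).baseSet := by simpa using hy
    have e1 := Trivialization.symmL_apply (R := ℝ)
      (trivializationAt E (TangentSpace 𝓘(ℝ, E)) x) hyb v
    have e2 := Trivialization.symmL_apply (R := ℝ)
      (trivializationAt E (TangentSpace 𝓘(ℝ, E)) x) hyb w
    simp
    rw [← e1, ← e2]
    rfl
  · simpa using hy
  · simpa using hy
  · simp

/-- A compatible family of local immersions: `ψ q` is an immersion near `q`, and any two of them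
induce the same inner products where both are considered. -/
structure LocImm (E M F : Type) [NormedAddCommGroup E] [NormedSpace ℝ E] [TopologicalSpace M]
    [ChartedSpace E M] [NormedAddCommGroup F] [InnerProductSpace ℝ F] where
  ψ : M → M → F
  smooth : ∀ q, ContMDiffAt 𝓘(ℝ, E) 𝓘(ℝ, F) ∞ (ψ q) q
  inj : ∀ q, Function.Injective (dd E (ψ q) q)
  compat : ∀ q, ∀ᶠ p in 𝓝 q, ∀ v w : E,
    inner ℝ (dd E (ψ p) p v) (dd E (ψ p) p w) = inner ℝ (dd E (ψ q) p v) (dd E (ψ q) p w)

variable [FiniteDimensional ℝ E]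

omit [IsManifold 𝓘(ℝ, E) ∞ M] in
lemma bdd_aux {L : E →L[ℝ] F} (h : Function.Injective L) :
    Bornology.IsVonNBounded ℝ {v : E | inner ℝ (L v) (L v) < 1} := by
  have hk : LinearMap.ker (L : E →ₗ[ℝ] F) = ⊥ := LinearMap.ker_eq_bot.2 h
  obtain ⟨K, hK, hA⟩ := LinearMap.exists_antilipschitzWith (L : E →ₗ[ℝ] F) hk
  have hs : {v : E | inner ℝ (L v) (L v) < 1} ⊆ Metric.closedBall 0 K := by
    intro v hv
    have h1 : ‖L v‖ < 1 := by
      have h2 : ‖L v‖ ^ 2 < 1 := by
        rw [← real_inner_self_eq_norm_sq]; exact hv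
      nlinarith [norm_nonneg (L v)]
    have h3 := hA.le_mul_dist v 0
    simp only [dist_zero_right, map_zero] at h3
    rw [mem_closedBall_zero_iff]
    calc ‖v‖ ≤ K * ‖L v‖ := by simpa using h3
      _ ≤ K * 1 := by gcongr
      _ = K := mul_one _
  exact (NormedSpace.isVonNBounded_closedBall ℝ E K).subset hs

set_option backward.isDefEq.respectTransparency false in
/-- The Riemannian metric of a compatible family of local immersions. -/
def LocImm.metric (Λ : LocImm E M F) : ContMDiffRiemannianMetric 𝓘(ℝ, E) ∞ E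
    (fun x : M => TangentSpace 𝓘(ℝ, E) x) where
  inner q := pbT E (Λ.ψ q) q
  symm q v w := real_inner_comm _ _
  pos q v hv := by
    rw [pbT_apply]
    apply real_inner_self_pos.2
    intro h
    apply hv
    exact (Λ.inj q) (h.trans (map_zero _).symm)
  isVonNBounded q := bdd_aux (E := E) (Λ.inj q)
  contMDiff := by
    intro q
    refine (contMDiffAt_pull (Λ.smooth q)).congr_of_eventuallyEq ?_
    filter_upwards [Λ.compat q] with p hp
    congr 1
    ext v w
    exact hp v w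

end Pool.Agent.TH625
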