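import Pool.Agent.TH625.Met

/-! The metric space of a connected Riemannian manifold, and maps preserving the metric. -/

set_option autoImplicit false

open scoped Manifold ContDiff Topology ENNReal
open Set Bundle Filter Manifold

noncomputable section

namespace Pool.Agent.TH625

lemma edist_ne_top_of_connected {M : Type} [PseudoEMetricSpace M] [PreconnectedSpace M]
    (x y : M) : edist x y ≠ ⊤ := by
  have h1 : IsOpen {y : M | edist y x < ⊤} := Metric.isOpen_eball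
  have h2 : IsClosed {y : M | edist y x < ⊤} := by
    rw [← isOpen_compl_iff]
    rw [EMetric.isOpen_iff]
    intro z hz
    refine ⟨1, one_pos, ?_⟩
    intro w hw hw2
    apply hz
    have h3 : edist z x ≤ edist z w + edist w x := edist_triangle _ _ _
    have h4 : edist z w < ⊤ := by
      rw [edist_comm]
      exact lt_of_lt_of_le hw le_top
    exact lt_of_le_of_lt h3 (ENNReal.add_lt_top.2 ⟨h4, hw2⟩)
  have h3 : {y : M | edist y x < ⊤} = univ :=
    IsClopen.eq_univ ⟨h2, h1⟩ ⟨x, by simp⟩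
  have h4 : y ∈ {y : M | edist y x < ⊤} := by rw [h3]; trivial
  rw [edist_comm]
  exact ne_of_lt h4

section

variable (E M : Type) [NormedAddCommGroup E] [NormedSpace ℝ E]
  [TopologicalSpace M] [ChartedSpace E M] [IsManifold 𝓘(ℝ, E) ∞ M]
  [RiemannianBundle (fun x : M => TangentSpace 𝓘(ℝ, E) x)]
  [IsContinuousRiemannianBundle E (fun x : M => TangentSpace 𝓘(ℝ, E) x)]
  [T3Space M] [PreconnectedSpace M]

/-- The extended metric space structure. -/
@[reducible] def riemEMS : EMetricSpace M := EMetricSpace.ofRiemannianMetric 𝓘(ℝ, E) M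

/-- The metric space structure of a connected Riemannian manifold. -/
@[reducible] def riemMS : MetricSpace M :=
  letI := riemEMS E M
  EMetricSpace.toMetricSpace (fun x y => edist_ne_top_of_connected x y)

lemma riemMS_isRiem :
    letI := riemMS E M
    IsRiemannianManifold 𝓘(ℝ, E) M := by
  letI := riemMS E M
  exact ⟨fun x y => rfl⟩

end

section

variable {E M : Type} [NormedAddCommGroup E] [NormedSpace ℝ E]
  [TopologicalSpace M] [ChartedSpace E M] [IsManifold 𝓘(ℝ, E) ∞ M]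
  [RiemannianBundle (fun x : M => TangentSpace 𝓘(ℝ, E) x)]
  {E' M' : Type} [NormedAddCommGroup E'] [NormedSpace ℝ E']
  [TopologicalSpace M'] [ChartedSpace E' M'] [IsManifold 𝓘(ℝ, E') ∞ M']
  [RiemannianBundle (fun x : M' => TangentSpace 𝓘(ℝ, E') x)]

omit [IsManifold 𝓘(ℝ, E) ∞ M] [IsManifold 𝓘(ℝ, E') ∞ M'] in
theorem riemannianEDist_map_le {f : M → M'} (hf : ContMDiff 𝓘(ℝ, E) 𝓘(ℝ, E') 1 f)
    (hn : ∀ (x : M) (v : TangentSpace 𝓘(ℝ, E) x), ‖mfderiv 𝓘(ℝ, E) 𝓘(ℝ, E') f x v‖ₑ ≤ ‖v‖ₑ)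
    (a b : M) : riemannianEDist 𝓘(ℝ, E') (f a) (f b) ≤ riemannianEDist 𝓘(ℝ, E) a b := by
  rw [riemannianEDist, riemannianEDist]
  simp only [le_iInf_iff]
  intro γ hγ
  let P : Path (f a) (f b) := γ.map hf.continuous
  have hP : ContMDiff (𝓡∂ 1) 𝓘(ℝ, E') 1 P := hf.comp hγ
  refine (biInf_le (i := P) _ hP).trans ?_
  apply MeasureTheory.lintegral_mono
  intro t
  have h1 : MDifferentiableAt (𝓡∂ 1) 𝓘(ℝ, E) γ t := hγ.mdifferentiable one_ne_zero t
  have h2 : MDifferentiableAt 𝓘(ℝ, E) 𝓘(ℝ, E') f (γ t) := hf.mdifferentiable one_ne_zero _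
  have h3 := mfderiv_comp (I := 𝓡∂ 1) (I' := 𝓘(ℝ, E)) (I'' := 𝓘(ℝ, E')) t h2 h1
  have h4 : mfderiv (𝓡∂ 1) 𝓘(ℝ, E') P t 1 =
      mfderiv 𝓘(ℝ, E) 𝓘(ℝ, E') f (γ t) (mfderiv (𝓡∂ 1) 𝓘(ℝ, E) γ t 1) := by
    have : (P : unitInterval → M') = f ∘ γ := rfl
    rw [this, h3]
    rfl
  change ‖mfderiv (𝓡∂ 1) 𝓘(ℝ, E') P t 1‖ₑ ≤ _
  rw [h4]
  exact hn _ _

end

end Pool.Agent.TH625
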