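import Pool.Agent.TH625.SmQ
import Pool.Agent.TH625.Rie

/-! The Riemannian metric of the quotient of an immersed manifold by a group acting by ambient
isometries. -/

set_option autoImplicit false

open scoped Manifold ContDiff Topology ENNReal
open Set Bundle Filter Manifold

noncomputable section

namespace Pool.Agent.TH625

section norm

variable {E : Type} [NormedAddCommGroup E] [NormedSpace ℝ E] [FiniteDimensional ℝ E]
  {M : Type} [TopologicalSpace M] [ChartedSpace E M] [IsManifold 𝓘(ℝ, E) ∞ M]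
  {F : Type} [NormedAddCommGroup F] [InnerProductSpace ℝ F]

lemma LocImm.norm_sq (Λ : LocImm E M F) (q : M) (v : TangentSpace 𝓘(ℝ, E) q) :
    letI : RiemannianBundle (fun x : M => TangentSpace 𝓘(ℝ, E) x) :=
      ⟨Λ.metric.toRiemannianMetric⟩
    ‖v‖ = ‖dd E (Λ.ψ q) q v‖ := by
  let _ : RiemannianBundle (fun x : M => TangentSpace 𝓘(ℝ, E) x) :=
      ⟨Λ.metric.toRiemannianMetric⟩
  have h1 : (inner ℝ v v : ℝ) = inner ℝ (dd E (Λ.ψ q) q v) (dd E (Λ.ψ q) q v) := rfl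
  rw [real_inner_self_eq_norm_sq, real_inner_self_eq_norm_sq] at h1
  exact (sq_eq_sq₀ (norm_nonneg _) (norm_nonneg _)).1 h1

end norm

section dd

variable {X E : Type} [NormedAddCommGroup E] [NormedSpace ℝ E]
  [TopologicalSpace X] [ChartedSpace E X]
  {F : Type} [NormedAddCommGroup F] [InnerProductSpace ℝ F]

lemma dd_congr {ψ ψ' : X → F} {q : X} (h : ψ =ᶠ[𝓝 q] ψ') : dd E ψ q = dd E ψ' q :=
  h.mfderiv_eq

lemma dd_linear {ψ : X → F} {q : X} (L : F →ₗᵢ[ℝ] F) (h : MDifferentiableAt 𝓘(ℝ, E) 𝓘(ℝ, F) ψ q)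
    (v : E) : dd E (L ∘ ψ) q v = L (dd E ψ q v) := by
  have h1 : MDifferentiableAt 𝓘(ℝ, F) 𝓘(ℝ, F) L (ψ q) :=
    L.toContinuousLinearMap.differentiableAt.mdifferentiableAt
  have h2 := mfderiv_comp (I := 𝓘(ℝ, E)) (I' := 𝓘(ℝ, F)) (I'' := 𝓘(ℝ, F)) q h1 h
  have h3 : mfderiv 𝓘(ℝ, F) 𝓘(ℝ, F) L (ψ q) = L.toContinuousLinearMap := by
    rw [mfderiv_eq_fderiv]
    exact L.toContinuousLinearMap.fderiv
  unfold dd
  rw [h2, h3]
  rfl

end dd

variable {G X E : Type} [NormedAddCommGroup E] [NormedSpace ℝ E]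
  [TopologicalSpace X] [ChartedSpace E X] [IsManifold 𝓘(ℝ, E) ∞ X]
  [Group G] [MulAction G X] [ProperlyDiscontinuousSMul G X]
  [ContinuousConstSMul G X] [IsCancelSMul G X] [T2Space X] [LocallyCompactSpace X]
  {F : Type} [NormedAddCommGroup F] [InnerProductSpace ℝ F]

/-- The data of an immersion of `X` equivariant for ambient isometries. -/
structure EqImm (G X E F : Type) [NormedAddCommGroup E] [NormedSpace ℝ E]
    [TopologicalSpace X] [ChartedSpace E X] [Group G] [MulAction G X]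
    [NormedAddCommGroup F] [InnerProductSpace ℝ F] where
  hs : SmoothAct G X E
  ι : X → F
  smooth : ContMDiff 𝓘(ℝ, E) 𝓘(ℝ, F) ∞ ι
  inj : ∀ x, Function.Injective (dd E ι x)
  A : G → F →ₗᵢ[ℝ] F
  eqv : ∀ g x, ι (g • x) = A g (ι x)

lemma EqImm.dd_comp_li (e : EqImm G X E F) (x : X) {q : QM G X} (hq : q ∈ (li (G := G) x).source)
    (v : E) : letI := isManifold_QM (G := G) e.hs
      dd E (e.ι ∘ li (G := G) x) q v =
      dd E e.ι (li x q) ((mfderiv 𝓘(ℝ, E) 𝓘(ℝ, E) (li (G := G) x) q : E →L[ℝ] E) v) := by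
  have := isManifold_QM (G := G) e.hs
  have h1 : MDifferentiableAt 𝓘(ℝ, E) 𝓘(ℝ, F) e.ι (li x q) :=
    (e.smooth _).mdifferentiableAt (by simp)
  have h2 : MDifferentiableAt 𝓘(ℝ, E) 𝓘(ℝ, E) (li (G := G) x) q :=
    (contMDiffAt_li e.hs x hq).mdifferentiableAt (by simp)
  have h3 := mfderiv_comp (I := 𝓘(ℝ, E)) (I' := 𝓘(ℝ, E)) (I'' := 𝓘(ℝ, F)) q h1 h2
  unfold dd
  rw [h3]
  rfl

lemma li_deriv_inj (hs : SmoothAct G X E) (x : X) {q : QM G X}
    (hq : q ∈ (li (G := G) x).source) (v : E)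
    (h0 : (mfderiv 𝓘(ℝ, E) 𝓘(ℝ, E) (li (G := G) x) q : E →L[ℝ] E) v = 0) : v = 0 := by
  have := isManifold_QM (G := G) hs
  have hd1 : MDifferentiableAt 𝓘(ℝ, E) 𝓘(ℝ, E) (prj G X) (li (G := G) x q) :=
    (contMDiff_prj hs _).mdifferentiableAt (by simp)
  have hd2 : MDifferentiableAt 𝓘(ℝ, E) 𝓘(ℝ, E) (li (G := G) x) q :=
    (contMDiffAt_li hs x hq).mdifferentiableAt (by simp)
  have he : (prj G X ∘ li (G := G) x) =ᶠ[𝓝 q] id := by
    filter_upwards [(li (G := G) x).open_source.mem_nhds hq] with m hm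
    exact prj_li hm
  have h1 := he.mfderiv_eq (I := 𝓘(ℝ, E)) (I' := 𝓘(ℝ, E))
  have h2 := mfderiv_comp (I := 𝓘(ℝ, E)) (I' := 𝓘(ℝ, E)) (I'' := 𝓘(ℝ, E)) q hd1 hd2
  have h3 : (mfderiv 𝓘(ℝ, E) 𝓘(ℝ, E) (prj G X ∘ li (G := G) x) q : E →L[ℝ] E) v = v := by
    have h1' : (mfderiv 𝓘(ℝ, E) 𝓘(ℝ, E) (prj G X ∘ li (G := G) x) q : E →L[ℝ] E) =
      (mfderiv 𝓘(ℝ, E) 𝓘(ℝ, E) (id : QM G X → QM G X) q : E →L[ℝ] E) := h1
    rw [h1', mfderiv_id]
    rfl
  have h4 : (mfderiv 𝓘(ℝ, E) 𝓘(ℝ, E) (prj G X ∘ li (G := G) x) q : E →L[ℝ] E) v =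
      (mfderiv 𝓘(ℝ, E) 𝓘(ℝ, E) (prj G X) (li (G := G) x q) : E →L[ℝ] E)
        ((mfderiv 𝓘(ℝ, E) 𝓘(ℝ, E) (li (G := G) x) q : E →L[ℝ] E) v) := by
    rw [h2]; rfl
  rw [h0, map_zero] at h4
  exact h3.symm.trans h4

/-- The compatible family of immersions on the quotient. -/
def EqImm.loc (e : EqImm G X E F) : LocImm E (QM G X) F where
  ψ q := e.ι ∘ li (lft q)
  smooth q := by
    have h := prj_mem_source (G := G) (lft q)
    rw [prj_lft] at h
    exact (e.smooth _).comp q (contMDiffAt_li e.hs _ h)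
  inj q := by
    have h := prj_mem_source (G := G) (lft q)
    rw [prj_lft] at h
    rw [injective_iff_map_eq_zero]
    intro v hv
    rw [e.dd_comp_li _ h] at hv
    exact li_deriv_inj e.hs _ h v (e.inj _ (hv.trans (map_zero _).symm))
  compat q := by
    have h := prj_mem_source (G := G) (lft q)
    rw [prj_lft] at h
    filter_upwards [(li (G := G) (lft q)).open_source.mem_nhds h] with p hp v w
    have h' := prj_mem_source (G := G) (lft p)
    rw [prj_lft] at h'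
    obtain ⟨g, -, hg⟩ := li_eq (lft p) (lft q) h' hp
    have h1 : (e.ι ∘ li (G := G) (lft p)) =ᶠ[𝓝 p] (e.A g ∘ (e.ι ∘ li (G := G) (lft q))) := by
      filter_upwards [hg] with m hm
      simp only [Function.comp_apply]
      rw [hm, e.eqv]
    have h2 : MDifferentiableAt 𝓘(ℝ, E) 𝓘(ℝ, F) (e.ι ∘ li (G := G) (lft q)) p :=
      ((e.smooth _).comp p (contMDiffAt_li e.hs _ hp)).mdifferentiableAt (by simp)
    rw [dd_congr h1, dd_linear _ h2, dd_linear _ h2, LinearIsometry.inner_map_map]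

/-- The derivative of a map of the quotient induced by an ambient isometry. -/
theorem EqImm.dd_map (e : EqImm G X E F) {f : QM G X → QM G X} {f' : X → X}
    (hf : ∀ x, f (prj G X x) = prj G X (f' x)) (hc : Continuous f')
    (hfs : ContMDiff 𝓘(ℝ, E) 𝓘(ℝ, E) ∞ f)
    (A : F →ₗᵢ[ℝ] F) (hA : ∀ x, e.ι (f' x) = A (e.ι x)) (q : QM G X) (v : E) :
    ‖dd E (e.loc.ψ (f q)) (f q) ((mfderiv 𝓘(ℝ, E) 𝓘(ℝ, E) f q : E →L[ℝ] E) v)‖ =
      ‖dd E (e.loc.ψ q) q v‖ := by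
  have := isManifold_QM (G := G) e.hs
  have h := prj_mem_source (G := G) (lft q)
  rw [prj_lft] at h
  have hlq : li (G := G) (lft q) q = lft q := by
    have := li_prj_self (G := G) (lft q)
    rwa [prj_lft q] at this
  have h' := prj_mem_source (G := G) (lft (f q))
  rw [prj_lft] at h'
  have h2 : MDifferentiableAt 𝓘(ℝ, E) 𝓘(ℝ, F) (e.ι ∘ li (G := G) (lft q)) q :=
    ((e.smooth _).comp q (contMDiffAt_li e.hs _ h)).mdifferentiableAt (by simp)
  have h3 : MDifferentiableAt 𝓘(ℝ, E) 𝓘(ℝ, F) (e.ι ∘ li (G := G) (lft (f q))) (f q) :=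
    ((e.smooth _).comp (f q) (contMDiffAt_li e.hs _ h')).mdifferentiableAt (by simp)
  have h4 : MDifferentiableAt 𝓘(ℝ, E) 𝓘(ℝ, E) f q := (hfs q).mdifferentiableAt (by simp)
  have h5 := mfderiv_comp (I := 𝓘(ℝ, E)) (I' := 𝓘(ℝ, E)) (I'' := 𝓘(ℝ, F)) q h3 h4
  have h6 : dd E (e.loc.ψ (f q)) (f q) ((mfderiv 𝓘(ℝ, E) 𝓘(ℝ, E) f q : E →L[ℝ] E) v) =
      dd E ((e.ι ∘ li (G := G) (lft (f q))) ∘ f) q v := by
    unfold dd
    rw [h5]
    rfl
  have h7 : prj G X (f' (lft q)) ∈ (li (G := G) (lft (f q))).source := by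
    rw [← hf, prj_lft]; exact h'
  obtain ⟨g, -, hg⟩ := li_prj (lft (f q)) (f' (lft q)) h7
  have h8 : ((e.ι ∘ li (G := G) (lft (f q))) ∘ f) =ᶠ[𝓝 q]
      ((e.A g).comp A ∘ (e.ι ∘ li (G := G) (lft q))) := by
    have hc1 : ContinuousAt (fun m => f' (li (G := G) (lft q) m)) q :=
      hc.continuousAt.comp ((li (G := G) (lft q)).continuousAt h)
    have hc2 : ∀ᶠ m in 𝓝 q, li (lft (f q)) (prj G X (f' (li (G := G) (lft q) m))) =
        g • (f' (li (G := G) (lft q) m)) := by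
      refine hc1.eventually (p := fun u => li (lft (f q)) (prj G X u) = g • u) ?_
      change ∀ᶠ y in 𝓝 (f' (li (G := G) (lft q) q)), _
      rw [hlq]
      exact hg
    filter_upwards [(li (G := G) (lft q)).open_source.mem_nhds h, hc2] with m hm hm2
    simp only [Function.comp_apply, LinearIsometry.coe_comp]
    have h9 : f m = prj G X (f' (li (G := G) (lft q) m)) := by
      rw [← hf, prj_li hm]
    rw [h9, hm2, e.eqv, hA]
  rw [h6, dd_congr h8, dd_linear _ h2, LinearIsometry.norm_map]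
  rfl

/-- A map of the quotient induced by a smooth map is smooth. -/
theorem contMDiff_of_lift (hs : SmoothAct G X E) {f : QM G X → QM G X} {f' : X → X}
    (hf : ∀ x, f (prj G X x) = prj G X (f' x)) (hf' : ContMDiff 𝓘(ℝ, E) 𝓘(ℝ, E) ∞ f') :
    ContMDiff 𝓘(ℝ, E) 𝓘(ℝ, E) ∞ f := by
  intro q
  have h := prj_mem_source (G := G) (lft q)
  rw [prj_lft] at h
  have h1 : f =ᶠ[𝓝 q] (prj G X ∘ f' ∘ li (G := G) (lft q)) := by
    filter_upwards [(li (G := G) (lft q)).open_source.mem_nhds h] with m hm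
    simp only [Function.comp_apply]
    rw [← hf, prj_li hm]
  refine ContMDiffAt.congr_of_eventuallyEq ?_ h1
  exact (contMDiff_prj hs _).comp q ((hf' _).comp q (contMDiffAt_li hs _ h))

end Pool.Agent.TH625
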