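import Pool.Agent.TH625.QImm

/-! The product of three round spheres `S³`, and its quotients by sign changes. -/

set_option autoImplicit false

open scoped Manifold ContDiff Topology ENNReal Quaternion
open Set Bundle Filter Manifold

noncomputable section

namespace Pool.Agent.TH625

/-- The model space `ℝ³`. -/
abbrev E3 : Type := EuclideanSpace ℝ (Fin 3)

/-- The unit sphere `S³` of the quaternions. -/
abbrev S3 : Type := Metric.sphere (0 : ℍ) 1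

instance fact_finrank_H : Fact (Module.finrank ℝ ℍ = 3 + 1) := ⟨by rw [Quaternion.finrank_eq_four]⟩

/-- `S³ × S³ × S³`. -/
abbrev X9 : Type := S3 × S3 × S3

/-- `ℝ³ × ℝ³ × ℝ³`. -/
abbrev E9 : Type := E3 × E3 × E3

/-- The product model. -/
abbrev I9 : ModelWithCorners ℝ E9 (ModelProd E3 (ModelProd E3 E3)) :=
  𝓘(ℝ, E3).prod (𝓘(ℝ, E3).prod 𝓘(ℝ, E3))

instance csX9 : ChartedSpace E9 X9 :=
  inferInstanceAs (ChartedSpace (ModelProd E3 (ModelProd E3 E3)) (S3 × S3 × S3))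

lemma model_eq : (𝓘(ℝ, E9) : ModelWithCorners ℝ E9 E9) = I9 := by
  have h1 : (𝓘(ℝ, E3 × E3) : ModelWithCorners ℝ (E3 × E3) (E3 × E3)) =
    𝓘(ℝ, E3).prod 𝓘(ℝ, E3) := modelWithCornersSelf_prod
  have h2 : (𝓘(ℝ, E9) : ModelWithCorners ℝ E9 E9) =
    𝓘(ℝ, E3).prod 𝓘(ℝ, E3 × E3) := modelWithCornersSelf_prod
  rw [h2]
  exact congrArg (fun I => ModelWithCorners.prod 𝓘(ℝ, E3) I) h1

instance imS3 : IsManifold 𝓘(ℝ, E3) ∞ S3 :=
  inferInstanceAs (IsManifold (𝓡 3) ∞ (Metric.sphere (0 : ℍ) 1))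

lemma im0 : IsManifold I9 ∞ (S3 × S3 × S3) := inferInstance

instance imX9 : IsManifold 𝓘(ℝ, E9) ∞ X9 := by
  rw [model_eq]
  exact im0

lemma contMDiff_X9_iff {f : X9 → X9} :
    ContMDiff 𝓘(ℝ, E9) 𝓘(ℝ, E9) ∞ f ↔ ContMDiff I9 I9 ∞ f := by
  rw [model_eq]

/-- `ℍ³` with its Euclidean structure. -/
abbrev F9 : Type := PiLp 2 (fun _ : Fin 3 => ℍ)

/-- Isometries of `S³` from linear isometries. -/
def onS (a : ℍ ≃ₗᵢ[ℝ] ℍ) (x : S3) : S3 :=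
  ⟨a x, by rw [mem_sphere_zero_iff_norm, a.norm_map]; exact mem_sphere_zero_iff_norm.1 x.2⟩

lemma onS_coe (a : ℍ ≃ₗᵢ[ℝ] ℍ) (x : S3) : (onS a x : ℍ) = a x := rfl

lemma contMDiff_onS (a : ℍ ≃ₗᵢ[ℝ] ℍ) : ContMDiff 𝓘(ℝ, E3) 𝓘(ℝ, E3) ∞ (onS a) := by
  have h1 : ContMDiff (𝓡 3) 𝓘(ℝ, ℍ) ∞ (fun x : S3 => a (x : ℍ)) :=
    a.contDiff.contMDiff.comp contMDiff_coe_sphere
  exact ContMDiff.codRestrict_sphere h1 (fun x => (onS a x).2)

/-- The product of three isometries. -/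
def onX (a b c : ℍ ≃ₗᵢ[ℝ] ℍ) (x : X9) : X9 := (onS a x.1, onS b x.2.1, onS c x.2.2)

lemma contMDiff_onX (a b c : ℍ ≃ₗᵢ[ℝ] ℍ) : ContMDiff 𝓘(ℝ, E9) 𝓘(ℝ, E9) ∞ (onX a b c) := by
  rw [contMDiff_X9_iff]
  exact ContMDiff.prodMap (contMDiff_onS a)
    (ContMDiff.prodMap (contMDiff_onS b) (contMDiff_onS c))

/-- The linear version. -/
def onF (a b c : ℍ ≃ₗᵢ[ℝ] ℍ) : F9 ≃ₗᵢ[ℝ] F9 :=
  LinearIsometryEquiv.piLpCongrRight 2 ![a, b, c]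

/-- the inclusion as a linear map on `ℍ × ℍ × ℍ` -/
def Lc : ℍ × ℍ × ℍ →L[ℝ] F9 :=
  (PiLp.continuousLinearEquiv 2 ℝ (fun _ : Fin 3 => ℍ)).symm.toContinuousLinearMap ∘L
    ContinuousLinearMap.pi ![ContinuousLinearMap.fst ℝ ℍ (ℍ × ℍ),
      ContinuousLinearMap.fst ℝ ℍ ℍ ∘L ContinuousLinearMap.snd ℝ ℍ (ℍ × ℍ),
      ContinuousLinearMap.snd ℝ ℍ ℍ ∘L ContinuousLinearMap.snd ℝ ℍ (ℍ × ℍ)]

lemma Lc_apply (x : ℍ × ℍ × ℍ) (i : Fin 3) : Lc x i = ![x.1, x.2.1, x.2.2] i := by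
  fin_cases i <;> rfl

/-- the coordinates -/
def emb0 (x : X9) : ℍ × ℍ × ℍ := ((x.1 : ℍ), (x.2.1 : ℍ), (x.2.2 : ℍ))

/-- the inclusion -/
def emb (x : X9) : F9 := Lc (emb0 x)

lemma emb_onX (a b c : ℍ ≃ₗᵢ[ℝ] ℍ) (x : X9) : emb (onX a b c x) = onF a b c (emb x) := by
  apply PiLp.ext
  intro i
  fin_cases i <;> rfl

lemma contMDiff_emb0 : ContMDiff I9 𝓘(ℝ, ℍ × ℍ × ℍ) ∞ emb0 := by
  have h0 : ContMDiff 𝓘(ℝ, E3) 𝓘(ℝ, ℍ) ∞ (fun x : S3 => (x : ℍ)) := contMDiff_coe_sphere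
  have h1 : ContMDiff I9 𝓘(ℝ, ℍ) ∞ (fun x : S3 × S3 × S3 => (x.1 : ℍ)) := h0.comp contMDiff_fst
  have h2 : ContMDiff I9 𝓘(ℝ, ℍ) ∞ (fun x : S3 × S3 × S3 => (x.2.1 : ℍ)) :=
    h0.comp (contMDiff_fst.comp contMDiff_snd)
  have h3 : ContMDiff I9 𝓘(ℝ, ℍ) ∞ (fun x : S3 × S3 × S3 => (x.2.2 : ℍ)) :=
    h0.comp (contMDiff_snd.comp contMDiff_snd)
  exact h1.prodMk_space (h2.prodMk_space h3)

lemma contMDiff_emb : ContMDiff 𝓘(ℝ, E9) 𝓘(ℝ, F9) ∞ emb := by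
  rw [model_eq]
  exact Lc.contDiff.contMDiff.comp contMDiff_emb0

lemma S3_inj (p : S3) (v : E3)
    (h : (mfderiv 𝓘(ℝ, E3) 𝓘(ℝ, ℍ) ((↑) : S3 → ℍ) p : E3 →L[ℝ] ℍ) v = 0) : v = 0 := by
  have h1 := injective_mvfderiv_subtypeVal_sphere (n := 3) p
  have h2 : Function.Injective (mfderiv (𝓡 3) 𝓘(ℝ, ℍ) ((↑) : S3 → ℍ) p) := by
    convert! h1
  exact h2 (h.trans (map_zero _).symm)

lemma emb_inj (p : X9) : Function.Injective (dd E9 emb p) := by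
  rw [injective_iff_map_eq_zero]
  rintro ⟨u, v, w⟩ h
  have key : ∀ (pj : X9 → S3) (L : F9 →L[ℝ] ℍ) (hpj : ContMDiff I9 𝓘(ℝ, E3) ∞ pj)
      (hL : ∀ x, L (emb x) = pj x), (mfderiv I9 𝓘(ℝ, E3) pj p : E9 →L[ℝ] E3) (u, v, w) = 0 := by
    intro pj L hpj hL
    apply S3_inj (pj p)
    have h1 : MDifferentiableAt 𝓘(ℝ, F9) 𝓘(ℝ, ℍ) L (emb p) :=
      L.differentiableAt.mdifferentiableAt
    have h2 : MDifferentiableAt I9 𝓘(ℝ, F9) emb p := by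
      have := (contMDiff_emb p).mdifferentiableAt (by simp)
      rw [model_eq] at this
      exact this
    have h3 := mfderiv_comp (I := I9) (I' := 𝓘(ℝ, F9)) (I'' := 𝓘(ℝ, ℍ)) p h1 h2
    have h4 : MDifferentiableAt I9 𝓘(ℝ, E3) pj p := (hpj p).mdifferentiableAt (by simp)
    have h5 : MDifferentiableAt 𝓘(ℝ, E3) 𝓘(ℝ, ℍ) ((↑) : S3 → ℍ) (pj p) :=
      ((contMDiff_coe_sphere (m := ∞) (n := 3)) (pj p)).mdifferentiableAt (by simp)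
    have h6 := mfderiv_comp (I := I9) (I' := 𝓘(ℝ, E3)) (I'' := 𝓘(ℝ, ℍ)) p h5 h4
    have h7 : (L ∘ emb) = ((↑) : S3 → ℍ) ∘ pj := by
      funext x; exact hL x
    have h8 : (mfderiv I9 𝓘(ℝ, F9) emb p : E9 →L[ℝ] F9) (u, v, w) = 0 := by
      have : (dd E9 emb p) = (mfderiv I9 𝓘(ℝ, F9) emb p : E9 →L[ℝ] F9) := by
        unfold dd
        rw [model_eq]
      rw [← this]
      exact h
    have h9 : (mfderiv I9 𝓘(ℝ, ℍ) (L ∘ emb) p : E9 →L[ℝ] ℍ) (u, v, w) =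
        (mfderiv 𝓘(ℝ, F9) 𝓘(ℝ, ℍ) L (emb p) : F9 →L[ℝ] ℍ)
          ((mfderiv I9 𝓘(ℝ, F9) emb p : E9 →L[ℝ] F9) (u, v, w)) := by
      rw [h3]; rfl
    have h10 : (mfderiv I9 𝓘(ℝ, ℍ) (((↑) : S3 → ℍ) ∘ pj) p : E9 →L[ℝ] ℍ) (u, v, w) =
        (mfderiv 𝓘(ℝ, E3) 𝓘(ℝ, ℍ) ((↑) : S3 → ℍ) (pj p) : E3 →L[ℝ] ℍ)
          ((mfderiv I9 𝓘(ℝ, E3) pj p : E9 →L[ℝ] E3) (u, v, w)) := by
      rw [h6]; rfl
    rw [← h10, ← h7, h9, h8, map_zero]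
    rfl
  have k1 := key (fun x : S3 × S3 × S3 => x.1) (PiLp.proj 2 (fun _ : Fin 3 => ℍ) 0)
    contMDiff_fst (fun x => rfl)
  have k2 := key (fun x : S3 × S3 × S3 => x.2.1) (PiLp.proj 2 (fun _ : Fin 3 => ℍ) 1)
    (contMDiff_fst.comp contMDiff_snd) (fun x => rfl)
  have k3 := key (fun x : S3 × S3 × S3 => x.2.2) (PiLp.proj 2 (fun _ : Fin 3 => ℍ) 2)
    (contMDiff_snd.comp contMDiff_snd) (fun x => rfl)
  have e1 : HasMFDerivAt I9 𝓘(ℝ, E3) (fun x : S3 × S3 × S3 => x.1) p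
      (ContinuousLinearMap.fst ℝ E3 (E3 × E3)) := hasMFDerivAt_fst p
  have e2 : HasMFDerivAt I9 (𝓘(ℝ, E3).prod 𝓘(ℝ, E3)) (fun x : S3 × S3 × S3 => x.2) p
      (ContinuousLinearMap.snd ℝ E3 (E3 × E3)) := hasMFDerivAt_snd p
  have e3 : HasMFDerivAt (𝓘(ℝ, E3).prod 𝓘(ℝ, E3)) 𝓘(ℝ, E3) (fun x : S3 × S3 => x.1) p.2
      (ContinuousLinearMap.fst ℝ E3 E3) := hasMFDerivAt_fst p.2
  have e4 : HasMFDerivAt (𝓘(ℝ, E3).prod 𝓘(ℝ, E3)) 𝓘(ℝ, E3) (fun x : S3 × S3 => x.2) p.2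
      (ContinuousLinearMap.snd ℝ E3 E3) := hasMFDerivAt_snd p.2
  have e5 := e3.comp p e2
  have e6 := e4.comp p e2
  have m1 : (mfderiv I9 𝓘(ℝ, E3) (fun x : S3 × S3 × S3 => x.1) p : E9 →L[ℝ] E3) (u, v, w) = u := by
    rw [e1.mfderiv]; rfl
  have m2 : (mfderiv I9 𝓘(ℝ, E3) (fun x : S3 × S3 × S3 => x.2.1) p : E9 →L[ℝ] E3) (u, v, w) =
      v := by
    have := e5.mfderiv
    change (mfderiv I9 𝓘(ℝ, E3) ((fun x : S3 × S3 => x.1) ∘ (fun x : S3 × S3 × S3 => x.2)) p :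
      E9 →L[ℝ] E3) (u, v, w) = v
    rw [this]; rfl
  have m3 : (mfderiv I9 𝓘(ℝ, E3) (fun x : S3 × S3 × S3 => x.2.2) p : E9 →L[ℝ] E3) (u, v, w) =
      w := by
    have := e6.mfderiv
    change (mfderiv I9 𝓘(ℝ, E3) ((fun x : S3 × S3 => x.2) ∘ (fun x : S3 × S3 × S3 => x.2)) p :
      E9 →L[ℝ] E3) (u, v, w) = w
    rw [this]; rfl
  rw [m1] at k1
  rw [m2] at k2
  rw [m3] at k3
  rw [k1, k2, k3]
  rfl

/-- The linear isometry `±1`. -/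
def sg (u : ℤˣ) : ℍ ≃ₗᵢ[ℝ] ℍ := if u = 1 then LinearIsometryEquiv.refl ℝ ℍ else
  LinearIsometryEquiv.neg ℝ

lemma sg_apply (u : ℤˣ) (y : ℍ) : sg u y = ((u : ℤ) : ℝ) • y := by
  rcases Int.units_eq_one_or u with rfl | rfl
  · simp [sg]
  · have : (-1 : ℤˣ) ≠ 1 := by decide
    simp [sg, this]

/-- The group of sign changes. -/
abbrev G8 : Type := ℤˣ × ℤˣ × ℤˣ

instance act8 : MulAction G8 X9 where
  smul g x := onX (sg g.1) (sg g.2.1) (sg g.2.2) x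
  one_smul x := by
    change onX _ _ _ x = x
    refine Prod.ext (Subtype.ext ?_) (Prod.ext (Subtype.ext ?_) (Subtype.ext ?_)) <;>
      simp [onX, onS_coe, sg_apply]
  mul_smul g h x := by
    change onX _ _ _ x = onX _ _ _ (onX _ _ _ x)
    refine Prod.ext (Subtype.ext ?_) (Prod.ext (Subtype.ext ?_) (Subtype.ext ?_)) <;>
      simp [onX, onS_coe, sg_apply, mul_smul] <;> exact smul_comm _ _ _

lemma smul_def8 (g : G8) (x : X9) : g • x = onX (sg g.1) (sg g.2.1) (sg g.2.2) x := rfl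

lemma smul_fst (g : G8) (x : X9) : ((g • x).1 : ℍ) = ((g.1 : ℤ) : ℝ) • (x.1 : ℍ) :=
  sg_apply _ _

lemma smul_snd (g : G8) (x : X9) : ((g • x).2.1 : ℍ) = ((g.2.1 : ℤ) : ℝ) • (x.2.1 : ℍ) :=
  sg_apply _ _

lemma smul_thd (g : G8) (x : X9) : ((g • x).2.2 : ℍ) = ((g.2.2 : ℤ) : ℝ) • (x.2.2 : ℍ) :=
  sg_apply _ _

lemma S3_norm (x : S3) : ‖(x : ℍ)‖ = 1 := mem_sphere_zero_iff_norm.1 x.2

lemma S3_ne (x : S3) : (x : ℍ) ≠ 0 := by
  intro h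
  have := S3_norm x
  rw [h, norm_zero] at this
  exact zero_ne_one this

lemma sgn_cancel {u v : ℤˣ} {y : ℍ} (hy : y ≠ 0)
    (h : ((u : ℤ) : ℝ) • y = ((v : ℤ) : ℝ) • y) : u = v := by
  have h1 := smul_left_injective ℝ hy h
  exact Units.ext (by exact_mod_cast h1)

variable (Γ : Subgroup G8)

instance : ContinuousConstSMul Γ X9 where
  continuous_const_smul g := (contMDiff_onX _ _ _).continuous

instance : IsCancelSMul Γ X9 where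
  left_cancel' g x y h := (MulAction.injective g) h
  right_cancel' g h x e := by
    have e1 := congrArg (fun z : X9 => (z.1 : ℍ)) e
    have e2 := congrArg (fun z : X9 => (z.2.1 : ℍ)) e
    have e3 := congrArg (fun z : X9 => (z.2.2 : ℍ)) e
    have f1 := sgn_cancel (S3_ne _) ((smul_fst _ _).symm.trans (e1.trans (smul_fst _ _)))
    have f2 := sgn_cancel (S3_ne _) ((smul_snd _ _).symm.trans (e2.trans (smul_snd _ _)))
    have f3 := sgn_cancel (S3_ne _) ((smul_thd _ _).symm.trans (e3.trans (smul_thd _ _)))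
    exact Subtype.ext (Prod.ext f1 (Prod.ext f2 f3))

/-- The quotient of `S³ × S³ × S³` by a group of sign changes. -/
abbrev MQ : Type := QM Γ X9

lemma smooth8 : SmoothAct Γ X9 E9 := fun g => contMDiff_onX _ _ _

instance : IsManifold 𝓘(ℝ, E9) ∞ (MQ Γ) := isManifold_QM (smooth8 Γ)

/-- the equivariant immersion -/
def eqi : EqImm Γ X9 E9 F9 where
  hs := smooth8 Γ
  ι := emb
  smooth := contMDiff_emb
  inj := emb_inj
  A g := (onF (sg g.1.1) (sg g.1.2.1) (sg g.1.2.2)).toLinearIsometry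
  eqv g x := emb_onX _ _ _ x

instance rb : RiemannianBundle (fun x : MQ Γ => TangentSpace 𝓘(ℝ, E9) x) :=
  ⟨(eqi Γ).loc.metric.toRiemannianMetric⟩

instance rb_smooth : IsContMDiffRiemannianBundle 𝓘(ℝ, E9) ∞ E9
    (fun x : MQ Γ => TangentSpace 𝓘(ℝ, E9) x) := inferInstance

instance rb_cont : IsContinuousRiemannianBundle E9
    (fun x : MQ Γ => TangentSpace 𝓘(ℝ, E9) x) :=
  ⟨⟨(eqi Γ).loc.metric.inner, (eqi Γ).loc.metric.contMDiff.continuous, fun _ _ _ => rfl⟩⟩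

instance : T2Space (MQ Γ) := t2Space_of_properlyDiscontinuousSMul_of_t2Space

instance : CompactSpace (MQ Γ) := inferInstance

instance : ConnectedSpace S3 := by
  apply isConnected_iff_connectedSpace.1
  apply isConnected_sphere _ _ zero_le_one
  have : Module.finrank ℝ ℍ = 4 := Quaternion.finrank_eq_four
  rw [← Module.finrank_eq_rank, this]
  norm_num

instance : ConnectedSpace (MQ Γ) := inferInstance

instance : T3Space (MQ Γ) := inferInstance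

/-- The Riemannian distance. -/
instance ms : MetricSpace (MQ Γ) := riemMS E9 (MQ Γ)

instance : IsRiemannianManifold 𝓘(ℝ, E9) (MQ Γ) := riemMS_isRiem E9 (MQ Γ)

lemma norm_rb (q : MQ Γ) (v : TangentSpace 𝓘(ℝ, E9) q) :
    ‖v‖ = ‖dd E9 ((eqi Γ).loc.ψ q) q v‖ := (eqi Γ).loc.norm_sq q v

/-- Maps of the quotient induced by products of isometries are distance preserving. -/
theorem edist_map_le (a b c : ℍ ≃ₗᵢ[ℝ] ℍ) (f : MQ Γ → MQ Γ)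
    (hf : ∀ x, f (prj Γ X9 x) = prj Γ X9 (onX a b c x)) (p q : MQ Γ) :
    edist (f p) (f q) ≤ edist p q := by
  have hs : ContMDiff 𝓘(ℝ, E9) 𝓘(ℝ, E9) ∞ f := contMDiff_of_lift (smooth8 Γ) hf (contMDiff_onX _ _ _)
  refine riemannianEDist_map_le (hs.of_le (by simp)) ?_ p q
  intro x v
  have h := (eqi Γ).dd_map hf (contMDiff_onX a b c).continuous hs
    (onF a b c).toLinearIsometry (emb_onX a b c) x v
  have h1 : ‖mfderiv 𝓘(ℝ, E9) 𝓘(ℝ, E9) f x v‖ = ‖v‖ := by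
    rw [norm_rb, norm_rb]
    exact h
  rw [← ofReal_norm, ← ofReal_norm, h1]

end Pool.Agent.TH625
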