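import Pool.Agent.Helper381.Defs

/-! Homeomorphism invariance of the total Betti number. -/

set_option autoImplicit false

open Pool.Agent.Helper381

noncomputable section

namespace Pool.Agent.TH625

universe u v w

variable (k : Type w) [Field k] {X : Type u} {Y : Type u} [TopologicalSpace X] [TopologicalSpace Y]

/-- pullback of singular cochains by a homeomorphism -/
def pcE (h : X ≃ₜ Y) (n : ℕ) : (Sing Y n → k) ≃ₗ[k] (Sing X n → k) where
  toFun φ σ := φ ((h : C(X, Y)).comp σ)
  map_add' _ _ := rfl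
  map_smul' _ _ := rfl
  invFun φ σ := φ ((h.symm : C(Y, X)).comp σ)
  left_inv φ := by
    funext σ
    change φ _ = φ _
    congr 1
    ext x
    simp
  right_inv φ := by
    funext σ
    change φ _ = φ _
    congr 1
    ext x
    simp

lemma pcE_altd (h : X ≃ₜ Y) (n : ℕ) (φ : Sing Y n → k) :
    altd k (sface (X := X)) n (pcE k h n φ) = pcE k h (n + 1) (altd k (sface (X := Y)) n φ) := rfl

lemma map_cocycles (h : X ≃ₜ Y) (n : ℕ) :
    (cocycles k Y n).map (pcE k h n : (Sing Y n → k) →ₗ[k] (Sing X n → k)) = cocycles k X n := by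
  ext φ
  constructor
  · rintro ⟨ψ, hψ, rfl⟩
    change altd k (sface (X := X)) n (pcE k h n ψ) = 0
    rw [pcE_altd, show altd k (sface (X := Y)) n ψ = 0 from hψ, map_zero]
  · intro hφ
    refine ⟨(pcE k h n).symm φ, ?_, (pcE k h n).apply_symm_apply φ⟩
    change altd k (sface (X := Y)) n ((pcE k h n).symm φ) = 0
    apply (pcE k h (n + 1)).injective
    rw [← pcE_altd, (pcE k h n).apply_symm_apply, map_zero]
    exact hφ

lemma map_coboundaries (h : X ≃ₜ Y) (n : ℕ) :
    (coboundaries k Y n).map (pcE k h n : (Sing Y n → k) →ₗ[k] (Sing X n → k)) =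
      coboundaries k X n := by
  cases n with
  | zero => exact Submodule.map_bot _
  | succ n =>
    ext φ
    constructor
    · rintro ⟨_, ⟨ψ, rfl⟩, rfl⟩
      exact ⟨pcE k h n ψ, pcE_altd k h n ψ⟩
    · rintro ⟨ψ, rfl⟩
      refine ⟨_, ⟨(pcE k h n).symm ψ, rfl⟩, ?_⟩
      change pcE k h (n + 1) (altd k (sface (X := Y)) n ((pcE k h n).symm ψ)) = _
      rw [← pcE_altd, (pcE k h n).apply_symm_apply]

/-- the isomorphism of cohomology -/
def scE (h : X ≃ₜ Y) (n : ℕ) : SingularCohomology k Y n ≃ₗ[k] SingularCohomology k X n :=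
  Submodule.Quotient.equiv _ _ (((pcE k h n).submoduleMap (cocycles k Y n)).trans
    (LinearEquiv.ofEq _ _ (map_cocycles k h n))) (by
      ext ⟨φ, hφ⟩
      constructor
      · rintro ⟨⟨ψ, hψ⟩, hψ2, he⟩
        have e1 : pcE k h n ψ = φ := congrArg Subtype.val he
        change φ ∈ coboundaries k X n
        rw [← map_coboundaries k h n, ← e1]
        exact ⟨ψ, hψ2, rfl⟩
      · intro h1
        change φ ∈ coboundaries k X n at h1
        rw [← map_coboundaries k h n] at h1
        obtain ⟨ψ, hψ, he⟩ := h1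
        have hc : ψ ∈ cocycles k Y n := by
          rw [← map_cocycles k h n] at hφ
          obtain ⟨ψ', hψ', he'⟩ := hφ
          have : ψ = ψ' := (pcE k h n).injective (he.trans he'.symm)
          rw [this]; exact hψ'
        exact ⟨⟨ψ, hc⟩, hψ, Subtype.ext he⟩)

theorem totalBetti_homeo (h : X ≃ₜ Y) : totalBetti k X = totalBetti k Y := by
  unfold totalBetti
  congr 1
  funext N
  refine Finset.sum_congr rfl fun n _ => ?_
  rw [(scE k h n).rank_eq]

end Pool.Agent.TH625
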