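import Mathlib

/-! Smooth quotients of manifolds by free properly discontinuous smooth actions. -/

set_option autoImplicit false

open scoped Manifold ContDiff Topology
open Set

noncomputable section

namespace Pool.Agent.TH625

variable {G X E : Type} [NormedAddCommGroup E] [NormedSpace ℝ E]
  [TopologicalSpace X] [ChartedSpace E X]
  [Group G] [MulAction G X] [ProperlyDiscontinuousSMul G X]
  [ContinuousConstSMul G X] [IsCancelSMul G X] [T2Space X] [LocallyCompactSpace X]

/-- the orbit space -/
abbrev QM (G X : Type) [Group G] [MulAction G X] : Type := MulAction.orbitRel.Quotient G X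

variable (G X) in
/-- the projection -/
def prj : X → QM G X := Quotient.mk (MulAction.orbitRel G X)

omit [ChartedSpace E X] in
variable (G X) in
lemma prj_cov : IsQuotientCoveringMap (prj G X) G :=
  isQuotientCoveringMap_quotientMk_of_properlyDiscontinuousSMul

omit [ChartedSpace E X] in
variable (G X) in
lemma prj_lh : IsLocalHomeomorph (prj G X) := (prj_cov G X).isCoveringMap.isLocalHomeomorph

omit [TopologicalSpace X] [ChartedSpace E X] [ProperlyDiscontinuousSMul G X]
  [ContinuousConstSMul G X] [IsCancelSMul G X] [T2Space X] [LocallyCompactSpace X] in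
variable (G X) in
lemma prj_surj : Function.Surjective (prj G X) := Quotient.mk_surjective

omit [TopologicalSpace X] [ChartedSpace E X] [ProperlyDiscontinuousSMul G X]
  [ContinuousConstSMul G X] [IsCancelSMul G X] [T2Space X] [LocallyCompactSpace X] in
lemma prj_eq_iff {x y : X} : prj G X x = prj G X y ↔ ∃ g : G, g • x = y := by
  unfold prj
  rw [Quotient.eq]
  change x ∈ MulAction.orbit G y ↔ _
  rw [MulAction.mem_orbit_symm]
  rfl

/-- a chosen lift -/
def lft (q : QM G X) : X := (prj_surj G X).hasRightInverse.choose q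

omit [TopologicalSpace X] [ChartedSpace E X] [ProperlyDiscontinuousSMul G X]
  [ContinuousConstSMul G X] [IsCancelSMul G X] [T2Space X] [LocallyCompactSpace X] in
lemma prj_lft (q : QM G X) : prj G X (lft q) = q :=
  (prj_surj G X).hasRightInverse.choose_spec q

/-- local inverse at `x` -/
def li (x : X) : OpenPartialHomeomorph (QM G X) X := (prj_lh G X).localInverseAt x

omit [NormedSpace ℝ E] in
lemma chartAt_QM (q : QM G X) : chartAt E q = (li (lft q)).trans (chartAt E (lft q)) := rfl

omit [NormedSpace ℝ E] in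
lemma mem_atlas_QM {e : OpenPartialHomeomorph (QM G X) E} (he : e ∈ atlas E (QM G X)) :
    ∃ q : QM G X, e = (li (lft q)).trans (chartAt E (lft q)) := by
  obtain ⟨q, hq⟩ := he
  exact ⟨q, hq.symm⟩

omit [ChartedSpace E X] in
lemma li_symm (x : X) (y : X) : (li (G := G) x).symm y = prj G X y := by
  rw [li, IsLocalHomeomorph.localInverseAt_symm]

omit [ChartedSpace E X] in
lemma prj_li {x : X} {q : QM G X} (h : q ∈ (li (G := G) x).source) : prj G X (li x q) = q :=
  (prj_lh G X).apply_localInverseAt_of_mem h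

omit [ChartedSpace E X] in
lemma prj_mem_source (x : X) : prj G X x ∈ (li (G := G) x).source :=
  (prj_lh G X).apply_self_mem_localInverseAt_source

omit [ChartedSpace E X] in
lemma li_prj_self (x : X) : li (G := G) x (prj G X x) = x := by
  exact (prj_lh G X).localInverseAt_apply_self

/-- local description of local inverses -/
lemma li_prj (x v : X) (hv : prj G X v ∈ (li (G := G) x).source) :
    ∃ g : G, g • v = li x (prj G X v) ∧ ∀ᶠ u in 𝓝 v, li x (prj G X u) = g • u := by
  have hqw : prj G X (li x (prj G X v)) = prj G X v := prj_li hv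
  obtain ⟨g, hg⟩ := prj_eq_iff.1 hqw.symm
  refine ⟨g, hg, ?_⟩
  have hwt : li x (prj G X v) ∈ (li (G := G) x).target := (li x).map_source hv
  have h1 : ∀ᶠ u in 𝓝 v, g • u ∈ (li (G := G) x).target := by
    have hc : Continuous fun u : X => g • u := continuous_const_smul g
    have : g • v ∈ (li (G := G) x).target := by
      rw [hg]; exact hwt
    exact hc.continuousAt.preimage_mem_nhds ((li x).open_target.mem_nhds this)
  have hcont : Continuous (prj G X) := (prj_cov G X).continuous
  have h2 : ∀ᶠ u in 𝓝 v, prj G X u ∈ (li (G := G) x).source :=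
    hcont.continuousAt.preimage_mem_nhds ((li x).open_source.mem_nhds hv)
  filter_upwards [h1, h2] with u hu1 hu2
  apply (prj_lh G X).injOn_localInverseAt_target (x := x)
  · exact (li x).map_source hu2
  · exact hu1
  · change prj G X (li x (prj G X u)) = prj G X (g • u)
    rw [prj_li hu2]
    exact prj_eq_iff.2 ⟨g, rfl⟩

lemma li_eq (x y : X) {q : QM G X} (hx : q ∈ (li (G := G) x).source)
    (hy : q ∈ (li (G := G) y).source) :
    ∃ g : G, li x q = g • li y q ∧ ∀ᶠ m in 𝓝 q, li x m = g • li y m := by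
  have h : prj G X (li y q) ∈ (li (G := G) x).source := by rw [prj_li hy]; exact hx
  obtain ⟨g, h1, h2⟩ := li_prj x (li y q) h
  refine ⟨g, ?_, ?_⟩
  · rw [h1, prj_li hy]
  · have hc : ContinuousAt (li (G := G) y) q := (li y).continuousAt hy
    filter_upwards [hc.eventually h2, (li (G := G) y).open_source.mem_nhds hy] with m hm hm2
    rw [prj_li hm2] at hm
    exact hm

variable [IsManifold 𝓘(ℝ, E) ∞ X]

/-- smoothness of an action -/
def SmoothAct (G X E : Type) [NormedAddCommGroup E] [NormedSpace ℝ E]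
    [TopologicalSpace X] [ChartedSpace E X] [Group G] [MulAction G X] : Prop :=
  ∀ g : G, ContMDiff 𝓘(ℝ, E) 𝓘(ℝ, E) ∞ (fun x : X => g • x)

theorem isManifold_QM (hs : SmoothAct G X E) : IsManifold 𝓘(ℝ, E) ∞ (QM G X) := by
  apply isManifold_of_contDiffOn
  intro e e' he he'
  obtain ⟨q, rfl⟩ := mem_atlas_QM he
  obtain ⟨q', rfl⟩ := mem_atlas_QM he'
  intro v hv
  set a := lft q
  set a' := lft q'
  simp only [modelWithCornersSelf_coe, modelWithCornersSelf_coe_symm, preimage_id_eq, id_eq,
    range_id, inter_univ, OpenPartialHomeomorph.coe_trans, Function.comp_def] at hv ⊢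
  simp only [OpenPartialHomeomorph.trans_source, OpenPartialHomeomorph.trans_symm_eq_symm_trans_symm,
    OpenPartialHomeomorph.coe_trans, mem_inter_iff, mem_preimage, Function.comp_apply,
    OpenPartialHomeomorph.symm_source, li_symm] at hv
  obtain ⟨⟨hv0, hv1⟩, hv2, hv3⟩ := hv
  set w := (chartAt E a).symm v with hw
  obtain ⟨g, hg1, hg2⟩ := li_prj a' w hv2
  have hcs : ContinuousAt (chartAt E a).symm v := (chartAt E a).symm.continuousAt hv0
  have h1 : (fun x => ((li (G := G) a').trans (chartAt E a'))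
      (((li (G := G) a).trans (chartAt E a)).symm x)) =ᶠ[𝓝 v]
      fun x => (chartAt E a') (g • (chartAt E a).symm x) := by
    filter_upwards [hcs.eventually hg2] with x hx
    simp only [OpenPartialHomeomorph.trans_symm_eq_symm_trans_symm,
      OpenPartialHomeomorph.coe_trans, Function.comp_apply, li_symm]
    rw [hx]
  refine (ContDiffAt.congr_of_eventuallyEq ?_ h1).contDiffWithinAt
  rw [← contMDiffAt_iff_contDiffAt]
  have h2 : ContMDiffAt 𝓘(ℝ, E) 𝓘(ℝ, E) ∞ (chartAt E a).symm v :=
    (contMDiffOn_chart_symm (x := a)).contMDiffAt ((chartAt E a).open_target.mem_nhds hv0)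
  have h3 : ContMDiffAt 𝓘(ℝ, E) 𝓘(ℝ, E) ∞ (fun x : X => g • x) w := (hs g).contMDiffAt
  have h4 : ContMDiffAt 𝓘(ℝ, E) 𝓘(ℝ, E) ∞ (chartAt E a') (g • w) := by
    apply (contMDiffOn_chart (x := a')).contMDiffAt
    apply (chartAt E a').open_source.mem_nhds
    rw [hg1]; exact hv3
  exact h4.comp v (h3.comp v h2)

theorem contMDiff_prj (hs : SmoothAct G X E) :
    ContMDiff 𝓘(ℝ, E) 𝓘(ℝ, E) ∞ (prj G X) := by
  intro v
  rw [contMDiffAt_iff_target]
  refine ⟨(prj_cov G X).continuous.continuousAt, ?_⟩
  set q := prj G X v with hq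
  have hsrc : q ∈ (li (G := G) (lft q)).source := by
    have h := prj_mem_source (G := G) (lft q)
    rwa [prj_lft] at h
  obtain ⟨g, hg1, hg2⟩ := li_prj (lft q) v hsrc
  have h1 : (extChartAt 𝓘(ℝ, E) q ∘ prj G X) =ᶠ[𝓝 v] fun u => chartAt E (lft q) (g • u) := by
    filter_upwards [hg2] with u hu
    simp only [mfld_simps, chartAt_QM]
    rw [hu]
  refine ContMDiffAt.congr_of_eventuallyEq ?_ h1
  have h3 : ContMDiffAt 𝓘(ℝ, E) 𝓘(ℝ, E) ∞ (fun x : X => g • x) v := (hs g).contMDiffAt
  have h4 : ContMDiffAt 𝓘(ℝ, E) 𝓘(ℝ, E) ∞ (chartAt E (lft q)) (g • v) := by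
    apply (contMDiffOn_chart (x := lft q)).contMDiffAt
    apply (chartAt E (lft q)).open_source.mem_nhds
    rw [hg1]
    have : li (G := G) (lft q) (prj G X v) = lft q := by
      rw [← hq]
      have := li_prj_self (G := G) (lft q)
      rwa [prj_lft q] at this
    rw [this]
    exact mem_chart_source _ _
  exact h4.comp v h3

theorem contMDiffAt_li (hs : SmoothAct G X E) (x : X) {q : QM G X}
    (hq : q ∈ (li (G := G) x).source) : ContMDiffAt 𝓘(ℝ, E) 𝓘(ℝ, E) ∞ (li (G := G) x) q := by
  have := isManifold_QM hs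
  set b := lft q with hb
  have hsrc : q ∈ (li (G := G) b).source := by
    have h := prj_mem_source (G := G) (lft q)
    rwa [prj_lft] at h
  have hlb : li (G := G) b q = b := by
    have := li_prj_self (G := G) b
    rwa [prj_lft q] at this
  obtain ⟨g, hg1, hg2⟩ := li_eq x b hq hsrc
  have h1 : ContMDiffAt 𝓘(ℝ, E) 𝓘(ℝ, E) ∞ (li (G := G) b) q := by
    have h2 : ContMDiffAt 𝓘(ℝ, E) 𝓘(ℝ, E) ∞ (chartAt E q) q :=
      (contMDiffOn_chart (x := q)).contMDiffAt ((chartAt E q).open_source.mem_nhds
        (mem_chart_source E q))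
    have h3 : ContMDiffAt 𝓘(ℝ, E) 𝓘(ℝ, E) ∞ (chartAt E b).symm (chartAt E q q) := by
      apply (contMDiffOn_chart_symm (x := b)).contMDiffAt
      apply (chartAt E b).open_target.mem_nhds
      rw [chartAt_QM]
      simp only [OpenPartialHomeomorph.coe_trans, Function.comp_apply]
      rw [← hb, hlb]
      exact (chartAt E b).map_source (mem_chart_source _ _)
    refine (h3.comp q h2).congr_of_eventuallyEq ?_
    have hc : ContinuousAt (li (G := G) b) q := (li b).continuousAt hsrc
    have hmem : ∀ᶠ m in 𝓝 q, li (G := G) b m ∈ (chartAt E b).source := by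
      apply hc.eventually
      rw [hlb]
      exact (chartAt E b).open_source.mem_nhds (mem_chart_source _ _)
    filter_upwards [hmem] with m hm
    rw [Function.comp_apply, chartAt_QM]
    simp only [OpenPartialHomeomorph.coe_trans, Function.comp_apply]
    rw [← hb, (chartAt E b).left_inv hm]
  have h4 : ContMDiffAt 𝓘(ℝ, E) 𝓘(ℝ, E) ∞ (fun x : X => g • x) (li (G := G) b q) :=
    (hs g).contMDiffAt
  exact (h4.comp q h1).congr_of_eventuallyEq hg2

end Pool.Agent.TH625
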