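import Pool.Agent.TH625.S3
import Pool.Agent.Helper381.Main
import Pool.Agent.Helper381.Riem3

/-! Symmetries of the quotients of `S³ × S³ × S³` by sign changes. -/

set_option autoImplicit false

open scoped Manifold ContDiff Topology ENNReal Quaternion
open Set Bundle Filter Manifold
open Pool.Agent.Helper381

noncomputable section

namespace Pool.Agent.TH625

/-- The reflection of `ℍ` in the line of `x`. -/
def rho (x : S3) : ℍ ≃ₗᵢ[ℝ] ℍ := Submodule.reflection (ℝ ∙ (x : ℍ))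

lemma rho_self (x : S3) : rho x (x : ℍ) = x :=
  Submodule.reflection_mem_subspace_eq_self (Submodule.mem_span_singleton_self _)

lemma rho_rho (x : S3) (y : ℍ) : rho x (rho x y) = y := Submodule.reflection_reflection _ _

lemma rho_apply (x : S3) (y : ℍ) : rho x y = (2 * inner ℝ (x : ℍ) y) • (x : ℍ) - y := by
  unfold rho
  rw [Submodule.reflection_singleton_apply, S3_norm]
  simp [mul_smul, two_smul]

/-- `ρ_x y = y` for unit vectors means `y = ±x`. -/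
lemma rho_fix {x y : S3} (h : rho x (y : ℍ) = y) : y = x ∨ y = -x := by
  rw [rho_apply] at h
  have h1 : (y : ℍ) = (inner ℝ (x : ℍ) (y : ℍ)) • (x : ℍ) := by
    have : (2 * inner ℝ (x : ℍ) (y : ℍ)) • (x : ℍ) = (2 : ℝ) • (y : ℍ) := by
      rw [two_smul]; exact sub_eq_iff_eq_add.1 h
    rw [mul_smul] at this
    exact (smul_right_injective ℍ (two_ne_zero (α := ℝ)) this).symm
  have h2 : |inner ℝ (x : ℍ) (y : ℍ)| = 1 := by
    have h3 := congrArg norm h1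
    rw [norm_smul, S3_norm, S3_norm, mul_one, Real.norm_eq_abs] at h3
    exact h3.symm
  rcases eq_or_eq_neg_of_abs_eq h2 with h3 | h3
  · left
    apply Subtype.ext
    rw [h1, h3, one_smul]
  · right
    apply Subtype.ext
    rw [h1, h3, neg_one_smul]
    rfl

/-- `ρ_x y = -y` means `y ⊥ x`. -/
lemma rho_neg {x y : S3} (h : rho x (y : ℍ) = -(y : ℍ)) : inner ℝ (x : ℍ) (y : ℍ) = 0 := by
  rw [rho_apply, sub_eq_neg_self, smul_eq_zero] at h
  rcases h with h | h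
  · linarith
  · exact absurd h (S3_ne x)

lemma rho_of_orth {x y : S3} (h : inner ℝ (x : ℍ) (y : ℍ) = 0) : rho x (y : ℍ) = -(y : ℍ) := by
  rw [rho_apply, h]; simp

lemma onX_smul (a b c : ℍ ≃ₗᵢ[ℝ] ℍ) (g : G8) (x : X9) :
    onX a b c (g • x) = g • onX a b c x := by
  have key : ∀ (a : ℍ ≃ₗᵢ[ℝ] ℍ) (u : ℤˣ) (y : ℍ), a (sg u y) = sg u (a y) := by
    intro a u y
    rw [sg_apply, sg_apply, map_smul]
  refine Prod.ext (Subtype.ext (key _ _ _)) (Prod.ext (Subtype.ext (key _ _ _))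
    (Subtype.ext (key _ _ _)))

variable (Γ : Subgroup G8)

lemma onX_rel (a b c : ℍ ≃ₗᵢ[ℝ] ℍ) (x y : X9) (h : MulAction.orbitRel Γ X9 x y) :
    MulAction.orbitRel Γ X9 (onX a b c x) (onX a b c y) := by
  obtain ⟨g, hg⟩ := h
  refine ⟨g, ?_⟩
  rw [← hg]
  exact (onX_smul a b c g.1 y).symm

/-- the induced map -/
def mapQ (a b c : ℍ ≃ₗᵢ[ℝ] ℍ) : MQ Γ → MQ Γ := Quotient.map (onX a b c) (onX_rel Γ a b c)

lemma mapQ_prj (a b c : ℍ ≃ₗᵢ[ℝ] ℍ) (x : X9) :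
    mapQ Γ a b c (prj Γ X9 x) = prj Γ X9 (onX a b c x) := rfl

/-- the symmetry as a map -/
def rX (x : X9) : X9 → X9 := onX (rho x.1) (rho x.2.1) (rho x.2.2)

lemma rX_rX (x y : X9) : rX x (rX x y) = y :=
  Prod.ext (Subtype.ext (rho_rho _ _)) (Prod.ext (Subtype.ext (rho_rho _ _))
    (Subtype.ext (rho_rho _ _)))

lemma rX_self (x : X9) : rX x x = x :=
  Prod.ext (Subtype.ext (rho_self _)) (Prod.ext (Subtype.ext (rho_self _))
    (Subtype.ext (rho_self _)))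

/-- the symmetry of the quotient -/
def sQ (x : X9) : MQ Γ → MQ Γ := mapQ Γ (rho x.1) (rho x.2.1) (rho x.2.2)

lemma sQ_prj (x y : X9) : sQ Γ x (prj Γ X9 y) = prj Γ X9 (rX x y) := rfl

lemma sQ_sQ (x : X9) (q : MQ Γ) : sQ Γ x (sQ Γ x q) = q := by
  obtain ⟨y, rfl⟩ := prj_surj Γ X9 q
  rw [sQ_prj, sQ_prj, rX_rX]

lemma sQ_edist (x : X9) (p q : MQ Γ) : edist (sQ Γ x p) (sQ Γ x q) = edist p q := by
  apply le_antisymm
  · exact edist_map_le Γ _ _ _ (sQ Γ x) (fun _ => rfl) p q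
  · have := edist_map_le Γ _ _ _ (sQ Γ x) (fun _ => rfl) (sQ Γ x p) (sQ Γ x q)
    rwa [sQ_sQ, sQ_sQ] at this

/-- the symmetry as an isometry -/
def sI (x : X9) : MQ Γ ≃ᵢ MQ Γ where
  toFun := sQ Γ x
  invFun := sQ Γ x
  left_inv := sQ_sQ Γ x
  right_inv := sQ_sQ Γ x
  isometry_toFun := fun p q => sQ_edist Γ x p q

lemma sI_apply (x : X9) (q : MQ Γ) : sI Γ x q = sQ Γ x q := rfl

/-- fixed points of the symmetry -/
lemma sQ_fix {x y : X9} (h : sQ Γ x (prj Γ X9 y) = prj Γ X9 y) :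
    ∃ g ∈ Γ, rho x.1 (y.1 : ℍ) = ((g.1 : ℤ) : ℝ) • (y.1 : ℍ) ∧
      rho x.2.1 (y.2.1 : ℍ) = ((g.2.1 : ℤ) : ℝ) • (y.2.1 : ℍ) ∧
      rho x.2.2 (y.2.2 : ℍ) = ((g.2.2 : ℤ) : ℝ) • (y.2.2 : ℍ) := by
  rw [sQ_prj] at h
  obtain ⟨g, hg⟩ := prj_eq_iff.1 h.symm
  refine ⟨g.1, g.2, ?_, ?_, ?_⟩
  · rw [← smul_fst]; exact (congrArg (fun z : X9 => (z.1 : ℍ)) hg).symm
  · rw [← smul_snd]; exact (congrArg (fun z : X9 => (z.2.1 : ℍ)) hg).symm
  · rw [← smul_thd]; exact (congrArg (fun z : X9 => (z.2.2 : ℍ)) hg).symm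

lemma pos_fix {x y : S3} {u : ℤˣ} (hp : 0 < inner ℝ (x : ℍ) (y : ℍ))
    (h : rho x (y : ℍ) = ((u : ℤ) : ℝ) • (y : ℍ)) : y = x := by
  have h1 : inner ℝ (x : ℍ) (rho x (y : ℍ)) = inner ℝ (x : ℍ) (y : ℍ) := by
    conv_lhs => rw [← rho_self x]
    exact (rho x).inner_map_map _ _
  rcases Int.units_eq_one_or u with rfl | rfl
  · simp only [Units.val_one, Int.cast_one, one_smul] at h
    rcases rho_fix h with h2 | h2
    · exact h2
    · rw [h2] at hp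
      exfalso
      have : inner ℝ (x : ℍ) ((-x : S3) : ℍ) = -1 := by
        rw [coe_neg_sphere, inner_neg_right, real_inner_self_eq_norm_sq, S3_norm]
        norm_num
      linarith
  · exfalso
    rw [h] at h1
    rw [inner_smul_right] at h1
    simp at h1
    linarith

lemma isSymmetryAt_sI (x : X9) : IsSymmetryAt (prj Γ X9 x) (sI Γ x) := by
  refine ⟨sQ_sQ Γ x, ?_, ?_⟩
  · change sQ Γ x (prj Γ X9 x) = _
    rw [sQ_prj, rX_self]
  · let U : Set X9 := {y | 0 < inner ℝ (x.1 : ℍ) (y.1 : ℍ) ∧ 0 < inner ℝ (x.2.1 : ℍ) (y.2.1 : ℍ) ∧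
      0 < inner ℝ (x.2.2 : ℍ) (y.2.2 : ℍ)}
    have c1 : Continuous fun y : X9 => inner ℝ (x.1 : ℍ) (y.1 : ℍ) := by fun_prop
    have c2 : Continuous fun y : X9 => inner ℝ (x.2.1 : ℍ) (y.2.1 : ℍ) := by fun_prop
    have c3 : Continuous fun y : X9 => inner ℝ (x.2.2 : ℍ) (y.2.2 : ℍ) := by fun_prop
    have hU : IsOpen U :=
      (isOpen_lt continuous_const c1).inter
        ((isOpen_lt continuous_const c2).inter (isOpen_lt continuous_const c3))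
    have hV : IsOpen (prj Γ X9 '' U) := (prj_lh Γ X9).isOpenMap _ hU
    have hx : prj Γ X9 x ∈ prj Γ X9 '' U := by
      refine ⟨x, ⟨?_, ?_, ?_⟩, rfl⟩ <;>
      · rw [real_inner_self_eq_norm_sq, S3_norm]; norm_num
    obtain ⟨ε, hε, hb⟩ := Metric.isOpen_iff.1 hV _ hx
    refine ⟨ε, hε, ?_⟩
    intro q hq hfix
    obtain ⟨y, ⟨hy1, hy2, hy3⟩, rfl⟩ := hb hq
    obtain ⟨g, -, h1, h2, h3⟩ := sQ_fix Γ hfix
    have e1 := pos_fix hy1 h1
    have e2 := pos_fix hy2 h2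
    have e3 := pos_fix hy3 h3
    have : y = x := Prod.ext e1 (Prod.ext e2 e3)
    rw [this]

theorem isSymmetric_MQ : IsSymmetric (MQ Γ) := by
  intro q
  obtain ⟨x, rfl⟩ := prj_surj Γ X9 q
  exact ⟨sI Γ x, isSymmetryAt_sI Γ x⟩

instance : Nonempty (MQ Γ) := inferInstance

theorem geo_MQ : ∃ R, Geo (MQ Γ) E9 R := riemannian_geo

/-- The symmetries are unique. -/
theorem antipodal_iff (A : Set (MQ Γ)) : IsAntipodal A ↔
    ∀ x y : X9, prj Γ X9 x ∈ A → prj Γ X9 y ∈ A → sQ Γ x (prj Γ X9 y) = prj Γ X9 y := by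
  obtain ⟨R, hG⟩ := geo_MQ Γ
  constructor
  · intro h x y hx hy
    obtain ⟨s, hs, hsy⟩ := h _ hx _ hy
    have := hG.symm_unique (isSymmetryAt_sI Γ x) hs (prj Γ X9 y)
    rw [sI_apply] at this
    rw [this, hsy]
  · intro h p hp q hq
    obtain ⟨x, rfl⟩ := prj_surj Γ X9 p
    obtain ⟨y, rfl⟩ := prj_surj Γ X9 q
    exact ⟨sI Γ x, isSymmetryAt_sI Γ x, h x y hp hq⟩

theorem twoNumber_le_MQ : twoNumber (MQ Γ) ≤ totalBetti (ZMod 2) (MQ Γ) := by
  obtain ⟨R, hG⟩ := geo_MQ Γ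
  exact hG.twoNumber_le

end Pool.Agent.TH625
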