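import Pool.Agent.TH625.Sym
import Pool.Agent.TH625.SCInv

/-! Two-numbers of two homeomorphic symmetric spaces. -/

set_option autoImplicit false

open scoped Manifold ContDiff Topology ENNReal Quaternion
open Set Bundle Filter Manifold
open Pool.Agent.Helper381

noncomputable section

namespace Pool.Agent.TH625

/-- sign changes with product `1` -/
def Γ1 : Subgroup G8 where
  carrier := {g | g.1 * g.2.1 * g.2.2 = 1}
  one_mem' := by simp
  mul_mem' := by
    intro a b ha hb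
    change a.1 * a.2.1 * a.2.2 = 1 at ha
    change b.1 * b.2.1 * b.2.2 = 1 at hb
    change (a * b).1 * (a * b).2.1 * (a * b).2.2 = 1
    have : (a * b).1 * (a * b).2.1 * (a * b).2.2 =
      (a.1 * a.2.1 * a.2.2) * (b.1 * b.2.1 * b.2.2) := by
      simp only [Prod.fst_mul, Prod.snd_mul]
      rw [mul_mul_mul_comm a.1 b.1, mul_mul_mul_comm (a.1 * a.2.1)]
    rw [this, ha, hb, one_mul]
  inv_mem' := by
    intro a ha
    change a.1 * a.2.1 * a.2.2 = 1 at ha
    change (a⁻¹).1 * (a⁻¹).2.1 * (a⁻¹).2.2 = 1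
    have : (a⁻¹).1 * (a⁻¹).2.1 * (a⁻¹).2.2 = (a.1 * a.2.1 * a.2.2)⁻¹ := by
      simp only [Prod.fst_inv, Prod.snd_inv, mul_inv]
    rw [this, ha, inv_one]

/-- sign changes of the first two coordinates -/
def Γ2 : Subgroup G8 where
  carrier := {g | g.2.2 = 1}
  one_mem' := by simp
  mul_mem' := by
    intro a b ha hb
    change a.2.2 = 1 at ha
    change b.2.2 = 1 at hb
    change (a * b).2.2 = 1
    simp [ha, hb]
  inv_mem' := by
    intro a ha
    change a.2.2 = 1 at ha
    change (a⁻¹).2.2 = 1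
    simp [ha]

lemma mem_Γ1 {g : G8} : g ∈ Γ1 ↔ g.1 * g.2.1 * g.2.2 = 1 := Iff.rfl

lemma mem_Γ2 {g : G8} : g ∈ Γ2 ↔ g.2.2 = 1 := Iff.rfl

/-- the homeomorphism `(x, y, z) ↦ (x, y, x z y)` -/
def hX : X9 ≃ₜ X9 where
  toFun x := (x.1, x.2.1, x.1 * x.2.2 * x.2.1)
  invFun x := (x.1, x.2.1, x.1⁻¹ * x.2.2 * x.2.1⁻¹)
  left_inv x := by
    refine Prod.ext rfl (Prod.ext rfl ?_)
    simp only
    group
  right_inv x := by
    refine Prod.ext rfl (Prod.ext rfl ?_)
    simp only
    group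
  continuous_toFun := by fun_prop
  continuous_invFun := by fun_prop

lemma sg_mul_left (u : ℤˣ) (y z : ℍ) : sg u y * z = sg u (y * z) := by
  rw [sg_apply, sg_apply, smul_mul_assoc]

lemma sg_mul_right (u : ℤˣ) (y z : ℍ) : y * sg u z = sg u (y * z) := by
  rw [sg_apply, sg_apply, mul_smul_comm]

lemma sg_sg (u v : ℤˣ) (y : ℍ) : sg u (sg v y) = sg (u * v) y := by
  rw [sg_apply, sg_apply, sg_apply, smul_smul]
  push_cast
  rfl

lemma sg_one (y : ℍ) : sg 1 y = y := by
  rw [sg_apply]; simp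

lemma hX_smul (g : G8) (x : X9) :
    hX (g • x) = ((g.1, g.2.1, g.1 * g.2.1 * g.2.2) : G8) • hX x := by
  refine Prod.ext rfl (Prod.ext rfl (Subtype.ext ?_))
  change (sg g.1 (x.1 : ℍ)) * (sg g.2.2 (x.2.2 : ℍ)) * (sg g.2.1 (x.2.1 : ℍ)) =
    sg (g.1 * g.2.1 * g.2.2) ((x.1 : ℍ) * (x.2.2 : ℍ) * (x.2.1 : ℍ))
  simp only [sg_apply, smul_mul_assoc, mul_smul_comm, smul_smul]
  congr 1
  push_cast
  ring

lemma hX_rel (x y : X9) (h : MulAction.orbitRel Γ1 X9 x y) :
    MulAction.orbitRel Γ2 X9 (hX x) (hX y) := by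
  obtain ⟨g, hg⟩ := h
  have hg' : g.1 • y = x := hg
  have h1 : g.1.1 * g.1.2.1 * g.1.2.2 = 1 := g.2
  refine ⟨⟨(g.1.1, g.1.2.1, 1), rfl⟩, ?_⟩
  change ((g.1.1, g.1.2.1, 1) : G8) • hX y = hX x
  rw [← hg', hX_smul, h1]

lemma hX_symm_rel (x y : X9) (h : MulAction.orbitRel Γ2 X9 x y) :
    MulAction.orbitRel Γ1 X9 (hX.symm x) (hX.symm y) := by
  obtain ⟨g, hg⟩ := h
  have hg' : g.1 • y = x := hg
  have h1 : g.1.2.2 = 1 := g.2
  have key : ∀ a b : ℤˣ, a * b * (a * b) = 1 := by decide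
  refine ⟨⟨(g.1.1, g.1.2.1, g.1.1 * g.1.2.1), key _ _⟩, ?_⟩
  change ((g.1.1, g.1.2.1, g.1.1 * g.1.2.1) : G8) • hX.symm y = hX.symm x
  apply hX.injective
  rw [hX_smul, hX.apply_symm_apply, hX.apply_symm_apply, ← hg']
  congr 1
  refine Prod.ext rfl (Prod.ext rfl ?_)
  change g.1.1 * g.1.2.1 * (g.1.1 * g.1.2.1) = g.1.2.2
  rw [h1, key]

/-- the homeomorphism of the quotients -/
def hQ : MQ Γ1 ≃ₜ MQ Γ2 where
  toFun := Quotient.map hX hX_rel
  invFun := Quotient.map hX.symm hX_symm_rel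
  left_inv q := by
    obtain ⟨x, rfl⟩ := prj_surj Γ1 X9 q
    change prj Γ1 X9 (hX.symm (hX x)) = _
    rw [hX.symm_apply_apply]
  right_inv q := by
    obtain ⟨x, rfl⟩ := prj_surj Γ2 X9 q
    change prj Γ2 X9 (hX (hX.symm x)) = _
    rw [hX.apply_symm_apply]
  continuous_toFun := hX.continuous.quotient_map' hX_rel
  continuous_invFun := hX.symm.continuous.quotient_map' hX_symm_rel

/-! ### The lower bound -/

/-- the standard basis of `ℍ` -/
def eb (i : Fin 4) : ℍ := ![⟨1, 0, 0, 0⟩, ⟨0, 1, 0, 0⟩, ⟨0, 0, 1, 0⟩, ⟨0, 0, 0, 1⟩] i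

lemma inner_eb (i j : Fin 4) : inner ℝ (eb i) (eb j) = if i = j then (1 : ℝ) else 0 := by
  rw [Quaternion.inner_def]
  fin_cases i <;> fin_cases j <;> simp [eb]

lemma norm_eb (i : Fin 4) : ‖eb i‖ = 1 := by
  have h := inner_eb i i
  rw [real_inner_self_eq_norm_sq, if_pos rfl] at h
  nlinarith [norm_nonneg (eb i)]

/-- the basis as points of the sphere -/
def es (i : Fin 4) : S3 := ⟨eb i, mem_sphere_zero_iff_norm.2 (norm_eb i)⟩

/-- a point of the sphere from a sign and a basis vector -/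
def ps (i : Fin 4) (u : ℤˣ) : S3 := onS (sg u) (es i)

lemma rho_es (i j : Fin 4) : rho (es i) (eb j) = sg (if i = j then 1 else -1) (eb j) := by
  split_ifs with h
  · rw [h, sg_one]; exact rho_self _
  · have : inner ℝ ((es i : S3) : ℍ) ((es j : S3) : ℍ) = 0 := by
      have := inner_eb i j
      rwa [if_neg h] at this
    have h2 := rho_of_orth this
    rw [sg_apply]
    have h3 : rho (es i) (eb j) = -eb j := h2
    simpa using h3

lemma ps_coe (i : Fin 4) (u : ℤˣ) : (ps i u : ℍ) = sg u (eb i) := rfl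

lemma rho_ps (i j : Fin 4) (u v : ℤˣ) :
    rho (ps i u) (ps j v : ℍ) = sg (if i = j then 1 else -1) (ps j v : ℍ) := by
  have h1 : (((u : ℤ) : ℝ) * ((u : ℤ) : ℝ)) = 1 := by
    rcases Int.units_eq_one_or u with rfl | rfl <;> simp
  have h2 : rho (ps i u) (ps j v : ℍ) = rho (es i) (ps j v : ℍ) := by
    rw [rho_apply, rho_apply]
    change (2 * inner ℝ (sg u (eb i)) (ps j v : ℍ)) • sg u (eb i) - _ =
      (2 * inner ℝ (eb i) (ps j v : ℍ)) • eb i - _
    rw [sg_apply, inner_smul_left, smul_smul]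
    congr 2
    simp only [conj_trivial]
    linear_combination (2 * inner ℝ (eb i) (ps j v : ℍ)) * h1
  rw [h2, ps_coe, sg_apply, map_smul, rho_es, sg_apply, sg_apply, smul_comm]

/-- the antipodal set -/
def pt (a : Fin 4 × Fin 4 × ℤˣ) : X9 := (ps a.1 1, ps a.2.1 1, ps 0 a.2.2)

lemma rX_pt (a b : Fin 4 × Fin 4 × ℤˣ) : rX (pt a) (pt b) =
    (((if a.1 = b.1 then 1 else -1), (if a.2.1 = b.2.1 then 1 else -1), 1) : G8) • pt b := by
  refine Prod.ext (Subtype.ext ?_) (Prod.ext (Subtype.ext ?_) (Subtype.ext ?_))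
  · exact rho_ps a.1 b.1 1 1
  · exact rho_ps a.2.1 b.2.1 1 1
  · have := rho_ps 0 0 a.2.2 b.2.2
    rw [if_pos rfl] at this
    exact this

lemma ps_eq {i j : Fin 4} {u v w : ℤˣ} (h : sg w (ps i u : ℍ) = ps j v) : i = j ∧ w * u = v := by
  rw [ps_coe, ps_coe, sg_apply, sg_apply, sg_apply, smul_smul] at h
  have hij : i = j := by
    by_contra hne
    have h1 := congrArg (fun z => inner ℝ (eb j) z) h
    simp only [inner_smul_right, inner_eb, if_neg (Ne.symm hne), if_true, mul_zero, mul_one] at h1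
    rcases Int.units_eq_one_or v with rfl | rfl <;> simp at h1
  refine ⟨hij, ?_⟩
  subst hij
  have h1 := congrArg (fun z => inner ℝ (eb i) z) h
  simp only [inner_smul_right, inner_eb, if_true, mul_one] at h1
  apply Units.ext
  push_cast
  exact_mod_cast h1

lemma pt_inj : Function.Injective fun a => prj Γ2 X9 (pt a) := by
  intro a b h
  obtain ⟨g, hg⟩ := prj_eq_iff.1 h
  have hg' : g.1 • pt a = pt b := hg
  have h1 := ps_eq (congrArg (fun z : X9 => (z.1 : ℍ)) hg')
  have h2 := ps_eq (congrArg (fun z : X9 => (z.2.1 : ℍ)) hg')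
  have h3 := ps_eq (congrArg (fun z : X9 => (z.2.2 : ℍ)) hg')
  have h4 : g.1.2.2 = 1 := g.2
  rw [h4, one_mul] at h3
  exact Prod.ext h1.1 (Prod.ext h2.1 h3.2)

theorem twoNumber_Γ2 : 32 ≤ twoNumber (MQ Γ2) := by
  have hA : IsAntipodal (range fun a => prj Γ2 X9 (pt a)) := by
    rintro _ ⟨a, rfl⟩ _ ⟨b, rfl⟩
    refine ⟨sI Γ2 (pt a), isSymmetryAt_sI Γ2 _, ?_⟩
    rw [sI_apply, sQ_prj, rX_pt]
    refine (prj_eq_iff.2 ⟨(⟨((if a.1 = b.1 then 1 else -1), (if a.2.1 = b.2.1 then 1 else -1), 1),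
      rfl⟩ : Γ2), rfl⟩).symm
  have h1 : (range fun a => prj Γ2 X9 (pt a)).encard ≤ twoNumber (MQ Γ2) :=
    le_iSup (fun A : {A : Set (MQ Γ2) // IsAntipodal A} => A.1.encard) ⟨_, hA⟩
  refine le_trans (le_of_eq ?_) h1
  rw [← image_univ, pt_inj.encard_image, encard_univ, ENat.card_eq_coe_fintype_card]
  simp

/-! ### The upper bound -/

/-- the `k`-th coordinate -/
def cd (k : Fin 3) (x : X9) : S3 := ![x.1, x.2.1, x.2.2] k

/-- coordinates parallel -/
def Par (k : Fin 3) (x y : X9) : Prop := cd k y = cd k x ∨ cd k y = -cd k x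

/-- coordinates orthogonal -/
def Ort (k : Fin 3) (x y : X9) : Prop := inner ℝ (cd k x : ℍ) (cd k y : ℍ) = 0

lemma Par.refl (k : Fin 3) (x : X9) : Par k x x := Or.inl rfl

lemma Par.symm {k : Fin 3} {x y : X9} (h : Par k x y) : Par k y x := by
  rcases h with h | h
  · exact Or.inl h.symm
  · exact Or.inr (by rw [h, neg_neg])

lemma Par.trans {k : Fin 3} {x y z : X9} (h : Par k x y) (h' : Par k y z) : Par k x z := by
  rcases h with h | h <;> rcases h' with h' | h'
  · exact Or.inl (h'.trans h)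
  · exact Or.inr (by rw [h', h])
  · exact Or.inr (by rw [h', h])
  · exact Or.inl (by rw [h', h, neg_neg])

lemma not_par_of_ort {k : Fin 3} {x y : X9} (h : Ort k x y) : ¬ Par k x y := by
  intro h'
  unfold Ort at h
  have e : inner ℝ (cd k x : ℍ) (cd k x : ℍ) = (1 : ℝ) := by
    rw [real_inner_self_eq_norm_sq, S3_norm]; norm_num
  rcases h' with h' | h'
  · rw [h', e] at h; exact one_ne_zero h
  · rw [h', coe_neg_sphere, inner_neg_right, e] at h
    norm_num at h

/-- Antipodal points of the first space: all coordinates parallel, or exactly one. -/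
lemma antip_Γ1 {x y : X9} (h : sQ Γ1 x (prj Γ1 X9 y) = prj Γ1 X9 y) :
    (∀ k, Par k x y) ∨ ∃ k, Par k x y ∧ ∀ m, m ≠ k → Ort m x y := by
  obtain ⟨g, hg, h1, h2, h3⟩ := sQ_fix Γ1 h
  rw [mem_Γ1] at hg
  have key : ∀ (a b : S3) (u : ℤˣ), rho a (b : ℍ) = ((u : ℤ) : ℝ) • (b : ℍ) →
      (u = 1 → b = a ∨ b = -a) ∧ (u = -1 → inner ℝ (a : ℍ) (b : ℍ) = 0) := by
    intro a b u hu
    constructor
    · rintro rfl
      apply rho_fix
      simpa using hu
    · rintro rfl
      apply rho_neg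
      simpa using hu
  have k1 := key _ _ _ h1
  have k2 := key _ _ _ h2
  have k3 := key _ _ _ h3
  rcases Int.units_eq_one_or g.1 with e1 | e1 <;> rcases Int.units_eq_one_or g.2.1 with e2 | e2 <;>
    rcases Int.units_eq_one_or g.2.2 with e3 | e3 <;> rw [e1, e2, e3] at hg
  · left
    intro k
    fin_cases k
    · exact k1.1 e1
    · exact k2.1 e2
    · exact k3.1 e3
  · exact absurd hg (by decide)
  · exact absurd hg (by decide)
  · right
    refine ⟨0, k1.1 e1, ?_⟩
    intro m hm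
    fin_cases m
    · exact absurd rfl hm
    · exact k2.2 e2
    · exact k3.2 e3
  · exact absurd hg (by decide)
  · right
    refine ⟨1, k2.1 e2, ?_⟩
    intro m hm
    fin_cases m
    · exact k1.2 e1
    · exact absurd rfl hm
    · exact k3.2 e3
  · right
    refine ⟨2, k3.1 e3, ?_⟩
    intro m hm
    fin_cases m
    · exact k1.2 e1
    · exact k2.2 e2
    · exact absurd rfl hm
  · exact absurd hg (by decide)

/-- Five points of `X9`, pairwise parallel in one coordinate and orthogonal in the two others,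
cannot exist. -/
lemma no_five (x : Fin 5 → X9)
    (h : ∀ i j, i ≠ j → ∃ k, Par k (x i) (x j) ∧ ∀ m, m ≠ k → Ort m (x i) (x j)) : False := by
  -- uniqueness of the parallel coordinate
  have huniq : ∀ i j, i ≠ j → ∀ k m, Par k (x i) (x j) → Par m (x i) (x j) → k = m := by
    intro i j hij k m hk hm
    obtain ⟨n, hn, ho⟩ := h i j hij
    have h1 : k = n := by
      by_contra hne; exact not_par_of_ort (ho k hne) hk
    have h2 : m = n := by
      by_contra hne; exact not_par_of_ort (ho m hne) hm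
    rw [h1, h2]
  choose! c hc hc2 using h
  -- two edges at `0` of the same colour
  obtain ⟨a, b, hab, hcab⟩ := Fintype.exists_ne_map_eq_of_card_lt
    (fun i : Fin 4 => c 0 i.succ) (by simp)
  change c 0 a.succ = c 0 b.succ at hcab
  set k := c 0 a.succ with hk
  have ha0 : (0 : Fin 5) ≠ a.succ := (Fin.succ_ne_zero a).symm
  have hb0 : (0 : Fin 5) ≠ b.succ := (Fin.succ_ne_zero b).symm
  have hab' : a.succ ≠ b.succ := fun e => hab (Fin.succ_injective _ e)
  have pa : Par k (x 0) (x a.succ) := hc 0 a.succ ha0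
  have pb : Par k (x 0) (x b.succ) := by rw [hcab]; exact hc 0 b.succ hb0
  have pab : Par k (x a.succ) (x b.succ) := pa.symm.trans pb
  -- all points are parallel in the coordinate `k`
  have hall : ∀ v, Par k (x 0) (x v) := by
    intro v
    by_contra hv
    have hv0 : v ≠ 0 := fun e => hv (by rw [e]; exact Par.refl _ _)
    have hva : v ≠ a.succ := fun e => hv (by rw [e]; exact pa)
    have hvb : v ≠ b.succ := fun e => hv (by rw [e]; exact pb)
    let w : Fin 3 → Fin 5 := ![0, a.succ, b.succ]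
    have hw : ∀ i, v ≠ w i := by
      intro i
      fin_cases i
      · exact hv0
      · exact hva
      · exact hvb
    have hpw : ∀ i, Par k (x 0) (x (w i)) := by
      intro i
      fin_cases i
      · exact Par.refl _ _
      · exact pa
      · exact pb
    have hwinj : ∀ i j, i ≠ j → w i ≠ w j := by
      intro i j hij
      fin_cases i <;> fin_cases j
      · exact absurd rfl hij
      · exact ha0
      · exact hb0
      · exact ha0.symm
      · exact absurd rfl hij
      · exact hab'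
      · exact hb0.symm
      · exact hab'.symm
      · exact absurd rfl hij
    have hne : ∀ i, c v (w i) ≠ k := by
      intro i e
      have := hc v (w i) (hw i)
      rw [e] at this
      exact hv ((hpw i).trans this.symm)
    obtain ⟨i, j, hij, hcij⟩ := Fintype.exists_ne_map_eq_of_card_lt
      (fun i : Fin 3 => (⟨c v (w i), hne i⟩ : {m : Fin 3 // m ≠ k})) (by
        rw [Fintype.card_subtype_compl]; simp)
    have hcij' : c v (w i) = c v (w j) := congrArg Subtype.val hcij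
    have p1 := hc v (w i) (hw i)
    have p2 := hc v (w j) (hw j)
    rw [← hcij'] at p2
    have p3 : Par (c v (w i)) (x (w i)) (x (w j)) := p1.symm.trans p2
    have p4 : Par k (x (w i)) (x (w j)) := (hpw i).symm.trans (hpw j)
    exact hne i (huniq _ _ (hwinj i j hij) _ _ p3 p4)
  -- a coordinate in which all are orthogonal
  obtain ⟨m, hm⟩ : ∃ m : Fin 3, m ≠ k := by
    rcases eq_or_ne k 0 with e | e
    · exact ⟨1, by rw [e]; decide⟩
    · exact ⟨0, e.symm⟩
  have horth : ∀ i j, i ≠ j → inner ℝ (cd m (x i) : ℍ) (cd m (x j) : ℍ) = (0 : ℝ) := by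
    intro i j hij
    have h1 : c i j = k := huniq i j hij _ _ (hc i j hij) ((hall i).symm.trans (hall j))
    exact hc2 i j hij m (by rw [h1]; exact hm)
  have hon : Orthonormal ℝ (fun i => (cd m (x i) : ℍ)) := by
    refine ⟨fun i => S3_norm _, fun i j hij => horth i j hij⟩
  have hcard := hon.linearIndependent.fintype_card_le_finrank
  rw [Quaternion.finrank_eq_four] at hcard
  simp at hcard

lemma par_all {x y : X9} (h : ∀ k, Par k x y) : ∃ g : G8, g • x = y := by
  have key : ∀ a b : S3, (b = a ∨ b = -a) → ∃ u : ℤˣ, onS (sg u) a = b := by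
    rintro a b (rfl | rfl)
    · exact ⟨1, Subtype.ext (sg_one _)⟩
    · refine ⟨-1, Subtype.ext ?_⟩
      rw [onS_coe, sg_apply]
      simp
  obtain ⟨u, hu⟩ := key x.1 y.1 (h 0)
  obtain ⟨v, hv⟩ := key x.2.1 y.2.1 (h 1)
  obtain ⟨w, hw⟩ := key x.2.2 y.2.2 (h 2)
  exact ⟨(u, v, w), Prod.ext hu (Prod.ext hv hw)⟩

/-- the class up to all sign changes -/
def cls (q : MQ Γ1) : MQ (⊤ : Subgroup G8) := prj (⊤ : Subgroup G8) X9 (lft q)

lemma cls_eq {q q' : MQ Γ1} : cls q = cls q' ↔ ∃ g : G8, g • lft q = lft q' := by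
  unfold cls
  rw [prj_eq_iff]
  constructor
  · rintro ⟨g, hg⟩
    exact ⟨g.1, hg⟩
  · rintro ⟨g, hg⟩
    exact ⟨⟨g, trivial⟩, hg⟩

lemma fiber_card (S : Finset (MQ Γ1)) (c : MQ (⊤ : Subgroup G8)) :
    by classical exact (S.filter (fun q => cls q = c)).card ≤ 2 := by
  classical
  rcases (S.filter (fun q => cls q = c)).eq_empty_or_nonempty with h | ⟨q0, hq0⟩
  · rw [h]; simp
  · rw [Finset.mem_filter] at hq0
    have hex : ∀ q : MQ Γ1, ∃ g : G8, cls q = c → g • lft q0 = lft q := by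
      intro q
      by_cases hq : cls q = c
      · obtain ⟨g, hg⟩ := cls_eq.1 (hq0.2.trans hq.symm)
        exact ⟨g, fun _ => hg⟩
      · exact ⟨1, fun h => absurd h hq⟩
    choose g hg using hex
    have hle : (S.filter (fun q => cls q = c)).card ≤ (Finset.univ : Finset ℤˣ).card := by
      apply Finset.card_le_card_of_injOn (fun q => (g q).1 * (g q).2.1 * (g q).2.2)
      · intro q _; exact Finset.mem_coe.2 (Finset.mem_univ _)
      · intro q hq q' hq' he
        rw [Finset.mem_coe, Finset.mem_filter] at hq hq'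
        simp only at he
        have h1 := hg q hq.2
        have h2 := hg q' hq'.2
        have h3 : g q' * (g q)⁻¹ ∈ Γ1 := by
          rw [mem_Γ1]
          have e : (g q' * (g q)⁻¹).1 * (g q' * (g q)⁻¹).2.1 * (g q' * (g q)⁻¹).2.2 =
            ((g q').1 * (g q').2.1 * (g q').2.2) * ((g q).1 * (g q).2.1 * (g q).2.2)⁻¹ := by
            simp only [Prod.fst_mul, Prod.snd_mul, Prod.fst_inv, Prod.snd_inv, mul_inv]
            rw [mul_mul_mul_comm (g q').1 (g q).1⁻¹, mul_mul_mul_comm ((g q').1 * (g q').2.1)]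
          rw [e, he, mul_inv_cancel]
        have h4 : (⟨g q' * (g q)⁻¹, h3⟩ : Γ1) • lft q = lft q' := by
          change (g q' * (g q)⁻¹) • lft q = lft q'
          rw [mul_smul, ← h1, inv_smul_smul, h2]
        have h5 : prj Γ1 X9 (lft q) = prj Γ1 X9 (lft q') := prj_eq_iff.2 ⟨_, h4⟩
        rwa [prj_lft, prj_lft] at h5
    simpa using hle

theorem twoNumber_Γ1 : twoNumber (MQ Γ1) ≤ 8 := by
  classical
  apply iSup_le
  rintro ⟨A, hA⟩
  rw [antipodal_iff] at hA
  by_contra hcon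
  push Not at hcon
  have h9 : (9 : ℕ∞) ≤ A.encard := by
    have := Order.add_one_le_of_lt hcon
    have e : (8 : ℕ∞) + 1 = 9 := by norm_num
    rwa [e] at this
  obtain ⟨B, hBA, hB⟩ := Set.exists_subset_encard_eq h9
  have hBf : B.Finite := Set.finite_of_encard_eq_coe (k := 9) hB
  have hBc : hBf.toFinset.card = 9 := by
    have := hBf.encard_eq_coe_toFinset_card
    rw [hB] at this
    exact_mod_cast this.symm
  have h1 := Finset.card_le_mul_card_image (s := hBf.toFinset) (f := cls) 2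
    (fun c _ => fiber_card hBf.toFinset c)
  rw [hBc] at h1
  have h2 : 5 ≤ (hBf.toFinset.image cls).card := by omega
  obtain ⟨T, hT, hTc⟩ := Finset.exists_subset_card_eq h2
  let e := (T.equivFinOfCardEq hTc).symm
  have h3 : ∀ i : Fin 5, ∃ q ∈ B, cls q = (e i : MQ (⊤ : Subgroup G8)) := by
    intro i
    have := hT (e i).2
    rw [Finset.mem_image] at this
    obtain ⟨q, hq, hq2⟩ := this
    exact ⟨q, by simpa using hq, hq2⟩
  choose q hq hq2 using h3
  apply no_five (fun i => lft (q i))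
  intro i j hij
  have h4 : sQ Γ1 (lft (q i)) (prj Γ1 X9 (lft (q j))) = prj Γ1 X9 (lft (q j)) := by
    apply hA
    · rw [prj_lft]; exact hBA (hq i)
    · rw [prj_lft]; exact hBA (hq j)
  rcases antip_Γ1 h4 with h5 | h5
  · exfalso
    have h6 := cls_eq.2 (par_all h5)
    rw [hq2, hq2] at h6
    exact hij (e.injective (Subtype.ext h6))
  · exact h5

theorem twoNumber_Γ1_ge : 8 ≤ twoNumber (MQ Γ1) := by
  have hA : IsAntipodal (range fun a : Fin 4 × ℤˣ => prj Γ1 X9 (pt (a.1, a.1, a.2))) := by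
    rintro _ ⟨a, rfl⟩ _ ⟨b, rfl⟩
    refine ⟨sI Γ1 (pt (a.1, a.1, a.2)), isSymmetryAt_sI Γ1 _, ?_⟩
    rw [sI_apply, sQ_prj, rX_pt]
    have hm : (((if a.1 = b.1 then 1 else -1), (if a.1 = b.1 then 1 else -1), 1) : G8) ∈ Γ1 := by
      rw [mem_Γ1]
      split_ifs <;> decide
    exact (prj_eq_iff.2 ⟨(⟨_, hm⟩ : Γ1), rfl⟩).symm
  have hinj : Function.Injective fun a : Fin 4 × ℤˣ => prj Γ1 X9 (pt (a.1, a.1, a.2)) := by
    intro a b h
    obtain ⟨g, hg⟩ := prj_eq_iff.1 h
    have hg' : g.1 • pt (a.1, a.1, a.2) = pt (b.1, b.1, b.2) := hg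
    have h1 := ps_eq (congrArg (fun z : X9 => (z.1 : ℍ)) hg')
    have h2 := ps_eq (congrArg (fun z : X9 => (z.2.1 : ℍ)) hg')
    have h3 := ps_eq (congrArg (fun z : X9 => (z.2.2 : ℍ)) hg')
    have h4 : g.1.1 * g.1.2.1 * g.1.2.2 = 1 := g.2
    have h5 : g.1.1 = 1 := by simpa using h1.2
    have h6 : g.1.2.1 = 1 := by simpa using h2.2
    rw [h5, h6, one_mul, one_mul] at h4
    rw [h4, one_mul] at h3
    exact Prod.ext h1.1 h3.2
  have h1 : (range fun a : Fin 4 × ℤˣ => prj Γ1 X9 (pt (a.1, a.1, a.2))).encard ≤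
      twoNumber (MQ Γ1) :=
    le_iSup (fun A : {A : Set (MQ Γ1) // IsAntipodal A} => A.1.encard) ⟨_, hA⟩
  refine le_trans (le_of_eq ?_) h1
  rw [← image_univ, hinj.encard_image, encard_univ, ENat.card_eq_coe_fintype_card]
  simp

/-- The two-number of the first space is smaller than its total mod 2 Betti number. -/
theorem main : twoNumber (MQ Γ1) = 8 ∧ 32 ≤ totalBetti (ZMod 2) (MQ Γ1) := by
  refine ⟨le_antisymm twoNumber_Γ1 twoNumber_Γ1_ge, ?_⟩
  rw [totalBetti_homeo (ZMod 2) hQ]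
  exact twoNumber_Γ2.trans (twoNumber_le_MQ Γ2)

end Pool.Agent.TH625
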